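import Pool.Agent.Q238.GM.Cau2

/-!
Job GM-CAU: from pairs of lines to planes.
-/

set_option autoImplicit false

namespace Pool.Agent.Q238.GM

open Pool.Agent.Q35.GM Filter

/-- A function which is eventually arbitrarily close to constants converges. -/
theorem conv_of_approx (f : ℝ → ℝ)
    (hf : ∀ ε : ℝ, 0 < ε → ∃ L : ℝ, ∀ᶠ B in atTop, |f B - L| ≤ ε) :
    ∃ c, Tendsto f atTop (nhds c) := by
  have hC : Cauchy (map f atTop) := by
    rw [Metric.cauchy_iff]
    refine ⟨inferInstance, ?_⟩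
    intro ε hε
    obtain ⟨L, hL⟩ := hf (ε / 3) (by positivity)
    refine ⟨{y | |y - L| ≤ ε / 3}, hL, ?_⟩
    intro x hx y hy
    have hx' : |x - L| ≤ ε / 3 := hx
    have hy' : |y - L| ≤ ε / 3 := hy
    rw [Real.dist_eq]
    have : |x - y| ≤ |x - L| + |y - L| := by
      have e : x - y = (x - L) - (y - L) := by ring
      rw [e]
      exact abs_sub _ _
    linarith
  obtain ⟨c, hc⟩ := CompleteSpace.complete hC
  exact ⟨c, hc⟩

/-- The ratio of consecutive terms. -/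
theorem ratio_lim (q r : ℕ) :
    Tendsto (fun b : ℕ => ((((b + 1 : ℕ) : ℝ) ^ q) ^ 2 / ((b : ℝ) ^ q) ^ 2) ^ r) atTop (nhds 1) := by
  have h1 : Tendsto (fun b : ℕ => ((b : ℝ) + 1) / b) atTop (nhds 1) := by
    have h2 : Tendsto (fun b : ℕ => 1 + 1 / (b : ℝ)) atTop (nhds (1 + 0)) :=
      tendsto_const_nhds.add tendsto_one_div_atTop_nhds_zero_nat
    rw [add_zero] at h2
    apply h2.congr'
    filter_upwards [eventually_ge_atTop 1] with b hb
    have : (b : ℝ) ≠ 0 := by positivity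
    field_simp
    try ring
  have h2 := ((h1.pow q).pow 2).pow r
  simp only [one_pow] at h2
  apply h2.congr
  intro b
  push_cast
  rw [div_pow, div_pow]

theorem interp (F : ℝ → ℝ) (hF0 : ∀ B, 0 ≤ F B)
    (hmono : ∀ B B2 : ℝ, 0 < B → B ≤ B2 → F B ≤ F B2)
    (ρ : ℝ) (hρ : 0 < ρ) (d r : ℕ) (hd : 1 ≤ d) (L ε : ℝ) (hε : 0 < ε)
    (hb : ∀ᶠ b : ℕ in atTop, |F (((b : ℝ) ^ d) ^ 2 / ρ) / (((b : ℝ) ^ d) ^ 2 / ρ) ^ r - L| ≤ ε) :
    ∀ᶠ B : ℝ in atTop, |F B / B ^ r - L| ≤ 2 * ε := by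
  set β : ℕ → ℝ := fun b => ((b : ℝ) ^ d) ^ 2 / ρ with hβ
  have hβmono : Monotone β := by
    intro a b hab
    simp only [hβ]
    have : (a : ℝ) ≤ b := by exact_mod_cast hab
    gcongr
  have hβpos : ∀ b : ℕ, 1 ≤ b → 0 < β b := by
    intro b hb
    have : (0 : ℝ) < b := by positivity
    simp only [hβ]
    positivity
  have hβtop : Tendsto β atTop atTop := by
    apply tendsto_atTop_mono' _ (f₁ := fun b : ℕ => (b : ℝ) / ρ)
    · filter_upwards [eventually_ge_atTop 1] with b hb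
      have h1 : (1 : ℝ) ≤ b := by exact_mod_cast hb
      simp only [hβ]
      have : (b : ℝ) ≤ ((b : ℝ) ^ d) ^ 2 := by
        rw [← pow_mul]
        exact le_self_pow₀ h1 (by omega)
      gcongr
    · exact tendsto_natCast_atTop_atTop.atTop_div_const hρ
  have hθ : Tendsto (fun b : ℕ => (β (b + 1) / β b) ^ r) atTop (nhds 1) := by
    apply (ratio_lim d r).congr'
    filter_upwards [eventually_ge_atTop 1] with b hb
    have h1 := hβpos b hb
    simp only [hβ] at h1 ⊢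
    congr 1
    have : (b : ℝ) ≠ 0 := by positivity
    field_simp
  have hu : ∀ᶠ b : ℕ in atTop, (L + ε) * (β (b + 1) / β b) ^ r < L + 2 * ε := by
    have : Tendsto (fun b : ℕ => (L + ε) * (β (b + 1) / β b) ^ r) atTop (nhds ((L + ε) * 1)) :=
      hθ.const_mul _
    rw [mul_one] at this
    exact this.eventually (gt_mem_nhds (by linarith))
  have hl : ∀ᶠ b : ℕ in atTop, L - 2 * ε < (L - ε) / (β (b + 1) / β b) ^ r := by
    have : Tendsto (fun b : ℕ => (L - ε) / (β (b + 1) / β b) ^ r) atTop (nhds ((L - ε) / 1)) :=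
      tendsto_const_nhds.div hθ one_ne_zero
    rw [div_one] at this
    exact this.eventually (lt_mem_nhds (by linarith))
  obtain ⟨b0, hb0⟩ := eventually_atTop.mp (hb.and (hu.and hl))
  set b1 := max b0 1 with hb1
  filter_upwards [eventually_ge_atTop (β b1)] with B hB
  have hex : ∃ n : ℕ, B < β n := (hβtop.eventually (eventually_gt_atTop B)).exists
  classical
  set n := Nat.find hex with hn
  have hn1 : B < β n := Nat.find_spec hex
  have hn2 : b1 < n := by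
    by_contra hc
    push Not at hc
    have := hβmono hc
    linarith
  obtain ⟨b, hnb⟩ : ∃ b, n = b + 1 := ⟨n - 1, by omega⟩
  have hbB : β b ≤ B := by
    have h1 : b < Nat.find hex := by omega
    have := Nat.find_min hex h1
    push Not at this
    exact this
  rw [hnb] at hn1
  have hbb : b1 ≤ b := by omega
  have hb01 : b0 ≤ b := (le_max_left _ _).trans hbb
  have hb11 : 1 ≤ b := (le_max_right b0 1).trans hbb
  obtain ⟨ha, hu', hl'⟩ := hb0 b hb01
  obtain ⟨ha2, -, -⟩ := hb0 (b + 1) (by omega)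
  have p1 : 0 < β b := hβpos b hb11
  have p2 : 0 < β (b + 1) := hβpos _ (by omega)
  have hB0 : 0 < B := by linarith
  change |F (β b) / (β b) ^ r - L| ≤ ε at ha
  change |F (β (b + 1)) / (β (b + 1)) ^ r - L| ≤ ε at ha2
  have m1 : F (β b) ≤ F B := hmono _ _ p1 hbB
  have m2 : F B ≤ F (β (b + 1)) := hmono _ _ hB0 hn1.le
  have f1 : 0 ≤ F (β b) := hF0 _
  have f2 : 0 ≤ F B := hF0 _
  have f3 : 0 ≤ F (β (b + 1)) := hF0 _
  generalize β (b + 1) = x2 at *
  generalize β b = x1 at *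
  have hθ0 : 0 < (x2 / x1) ^ r := by positivity
  rw [abs_le] at ha ha2 ⊢
  constructor
  · have h2 : L - ε ≤ F x1 / x1 ^ r := by linarith
    have h3 : (L - ε) / (x2 / x1) ^ r ≤ F B / B ^ r := by
      rw [div_le_iff₀ hθ0]
      calc L - ε ≤ F x1 / x1 ^ r := h2
        _ ≤ F B / x1 ^ r := by gcongr
        _ = F B * x2 ^ r / (x2 ^ r * x1 ^ r) := by field_simp
        _ ≤ F B * x2 ^ r / (B ^ r * x1 ^ r) := by gcongr
        _ = F B / B ^ r * (x2 / x1) ^ r := by rw [div_pow]; field_simp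
    linarith
  · have h3 : F B / B ^ r ≤ (L + ε) * (x2 / x1) ^ r := by
      have h2 : F x2 / x2 ^ r ≤ L + ε := by linarith
      calc F B / B ^ r ≤ F x2 / x1 ^ r := by gcongr
        _ = F x2 / x2 ^ r * (x2 / x1) ^ r := by rw [div_pow]; field_simp
        _ ≤ (L + ε) * (x2 / x1) ^ r := by gcongr
    linarith

/-- The cut-off function. -/
noncomputable def gd (δ u : ℝ) : ℝ := max 0 (min 1 (1 + (1 - u) / δ))

theorem gd_nonneg (δ u : ℝ) : 0 ≤ gd δ u := le_max_left _ _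

theorem gd_le_one (δ u : ℝ) : gd δ u ≤ 1 := max_le (by norm_num) (min_le_left _ _)

theorem gd_eq_one (δ u : ℝ) (hδ : 0 < δ) (hu : u ≤ 1) : gd δ u = 1 := by
  have : 0 ≤ (1 - u) / δ := div_nonneg (by linarith) hδ.le
  unfold gd
  rw [min_eq_left (by linarith), max_eq_right (by norm_num)]

theorem gd_eq_zero (δ u : ℝ) (hδ : 0 < δ) (hu : 1 + δ ≤ u) : gd δ u = 0 := by
  unfold gd
  apply max_eq_left
  refine (min_le_right _ _).trans ?_
  have : (1 - u) / δ ≤ -1 := by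
    rw [div_le_iff₀ hδ]
    linarith
  linarith

theorem gd_anti (δ u u' : ℝ) (hδ : 0 < δ) (hu : u ≤ u') : gd δ u' ≤ gd δ u := by
  unfold gd
  have : (1 - u') / δ ≤ (1 - u) / δ := by gcongr
  gcongr

theorem max_lip (a b : ℝ) : |max 0 a - max 0 b| ≤ |a - b| := by
  have := abs_max_sub_max_le_max 0 a 0 b
  rwa [sub_self, abs_zero, max_eq_right (abs_nonneg (a - b))] at this

theorem min_lip (a b : ℝ) : |min 1 a - min 1 b| ≤ |a - b| := by
  have := abs_min_sub_min_le_max 1 a 1 b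
  rwa [sub_self, abs_zero, max_eq_right (abs_nonneg (a - b))] at this

theorem gd_lip (δ u u' : ℝ) (hδ : 0 < δ) : |gd δ u - gd δ u'| ≤ 1 / δ * |u - u'| := by
  unfold gd
  refine (max_lip _ _).trans ((min_lip _ _).trans (le_of_eq ?_))
  have e : (1 + (1 - u) / δ) - (1 + (1 - u') / δ) = - ((u - u') / δ) := by ring
  rw [e, abs_neg, abs_div, abs_of_pos hδ]
  ring

section

variable {PL L : Type} {On : L → PL → Prop} {h : L → ℝ} {H v : PL → ℝ} {Λ : ℝ → ℝ} {r d : ℕ}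
  {C η C' : ℝ}

theorem NG_nonneg (hU : Ubd On h H r C') (w : PL → ℝ) (hw0 : ∀ W, 0 ≤ w W) (δ B : ℝ) :
    0 ≤ NG hU w (gd δ) B :=
  Finset.sum_nonneg fun _ _ => mul_nonneg (hw0 _) (gd_nonneg _ _)

theorem NG_mono (hS : Sys On h H v Λ r d C η) (hU : Ubd On h H r C') (w : PL → ℝ)
    (hw0 : ∀ W, 0 ≤ w W) (δ : ℝ) (hδ : 0 < δ) (B B2 : ℝ) (hB : 0 < B) (hBB : B ≤ B2) :
    NG hU w (gd δ) B ≤ NG hU w (gd δ) B2 := by
  unfold NG
  have h1 : ∑ W ∈ PB hU (2 * B), w W * gd δ (H W / B) ≤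
      ∑ W ∈ PB hU (2 * B), w W * gd δ (H W / B2) := by
    apply Finset.sum_le_sum
    intro W _
    apply mul_le_mul_of_nonneg_left _ (hw0 W)
    apply gd_anti δ _ _ hδ
    have := hS.one_le_H W
    gcongr
  refine h1.trans ?_
  apply Finset.sum_le_sum_of_subset_of_nonneg
  · intro W hW
    rw [mem_PB] at hW ⊢
    linarith
  · intro W _ _
    exact mul_nonneg (hw0 _) (gd_nonneg _ _)

/-- The number of the planes, with weights. -/
noncomputable def NN (hU : Ubd On h H r C') (w : PL → ℝ) (B : ℝ) : ℝ := ∑ W ∈ PB hU B, w W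

theorem NN_eq (hU : Ubd On h H r C') (w : PL → ℝ) (B : ℝ) :
    ∑ᶠ W ∈ {W : PL | H W ≤ B}, w W = NN hU w B := by
  rw [coe_PB hU, finsum_mem_coe_finset, NN]

theorem NN_le (hU : Ubd On h H r C') (w : PL → ℝ) (hw0 : ∀ W, 0 ≤ w W) (δ : ℝ) (hδ : 0 < δ)
    (B : ℝ) (hB : 0 < B) : NN hU w B ≤ NG hU w (gd δ) B := by
  unfold NN NG
  have h1 : ∑ W ∈ PB hU B, w W = ∑ W ∈ PB hU B, w W * gd δ (H W / B) := by
    apply Finset.sum_congr rfl
    intro W hW
    rw [mem_PB] at hW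
    rw [gd_eq_one δ _ hδ (by rw [div_le_one hB]; exact hW), mul_one]
  rw [h1]
  apply Finset.sum_le_sum_of_subset_of_nonneg
  · intro W hW
    rw [mem_PB] at hW ⊢
    linarith
  · intro W _ _
    exact mul_nonneg (hw0 _) (gd_nonneg _ _)

theorem NG_le_NN (hU : Ubd On h H r C') (w : PL → ℝ) (hw0 : ∀ W, 0 ≤ w W) (δ : ℝ) (hδ : 0 < δ)
    (B : ℝ) (hB : 0 < B) : NG hU w (gd δ) B ≤ NN hU w ((1 + δ) * B) := by
  classical
  unfold NN NG
  calc ∑ W ∈ PB hU (2 * B), w W * gd δ (H W / B) ≤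
      ∑ W ∈ PB hU (2 * B), if H W ≤ (1 + δ) * B then w W else 0 := by
        apply Finset.sum_le_sum
        intro W _
        split_ifs with hc
        · have h1 := hw0 W
          have h2 := gd_le_one δ (H W / B)
          nlinarith
        · push Not at hc
          rw [gd_eq_zero δ _ hδ, mul_zero]
          rw [le_div_iff₀ hB]
          exact hc.le
    _ = ∑ W ∈ (PB hU (2 * B)).filter fun W => H W ≤ (1 + δ) * B, w W := by
        rw [Finset.sum_filter]
    _ ≤ ∑ W ∈ PB hU ((1 + δ) * B), w W := by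
        apply Finset.sum_le_sum_of_subset_of_nonneg
        · intro W hW
          rw [Finset.mem_filter] at hW
          rw [mem_PB]
          exact hW.2
        · intro W _ _
          exact hw0 W

theorem NG_le (hU : Ubd On h H r C') (w : PL → ℝ) (hw1 : ∀ W, w W ≤ 1)
    (δ B : ℝ) (hB : 1 ≤ B) : NG hU w (gd δ) B ≤ C' * 2 ^ r * B ^ r := by
  unfold NG
  have h1 : ∑ W ∈ PB hU (2 * B), w W * gd δ (H W / B) ≤ ∑ W ∈ PB hU (2 * B), (1 : ℝ) := by
    apply Finset.sum_le_sum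
    intro W _
    exact mul_le_one₀ (hw1 W) (gd_nonneg _ _) (gd_le_one _ _)
  rw [Finset.sum_const, nsmul_eq_mul, mul_one] at h1
  refine h1.trans ?_
  have h4 := hU.tot (2 * B) (by linarith)
  rw [coe_PB hU, Set.ncard_coe_finset, mul_pow] at h4
  linarith

end

theorem cau : Pool.Agent.Q35.GM.S_CAU := by
  intro PL L On h H v Λ r d C η C' w hS hU hw0 hw1 hPS
  have hC'1 := hU.one_le
  set M : ℝ := C' * 2 ^ r with hM
  have hM0 : 0 ≤ M := by positivity
  apply conv_of_approx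
  intro ε hε
  -- choice of `δ`
  obtain ⟨δ, hδ0, hδ1, hδM⟩ : ∃ δ : ℝ, 0 < δ ∧ δ ≤ 1 ∧ M * (1 - 1 / (1 + δ) ^ r) ≤ ε / 2 := by
    have hc : ContinuousAt (fun δ : ℝ => M * (1 - 1 / (1 + δ) ^ r)) 0 := by
      apply ContinuousAt.mul continuousAt_const
      apply ContinuousAt.sub continuousAt_const
      apply ContinuousAt.div continuousAt_const
      · fun_prop
      · simp
    have h0 : M * (1 - 1 / (1 + (0 : ℝ)) ^ r) = 0 := by simp
    have h1 := hc.tendsto.eventually (gt_mem_nhds (by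
      show M * (1 - 1 / (1 + (0 : ℝ)) ^ r) < ε / 2
      rw [h0]; positivity))
    rw [Metric.eventually_nhds_iff] at h1
    obtain ⟨τ, hτ, h2⟩ := h1
    refine ⟨min (τ / 2) 1, by positivity, min_le_right _ _, ?_⟩
    have h3 : dist (min (τ / 2) 1) 0 < τ := by
      rw [Real.dist_0_eq_abs, abs_of_nonneg (by positivity)]
      have := min_le_left (τ / 2) 1
      linarith
    exact (h2 h3).le
  -- the smooth sums
  obtain ⟨ρ, hρ1, hρ⟩ := claimA hS hU w hw0 hw1 (ε / 8) (by positivity)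
  have hρ0 : 0 < ρ := by linarith
  obtain ⟨c, hc⟩ := hPS ρ (gd δ) hρ1 ⟨1 / δ, fun u u' => gd_lip δ u u' hδ0⟩ (gd_nonneg δ)
    (gd_le_one δ)
  set L : ℝ := ρ ^ r * c with hL
  have hpow : Tendsto (fun b : ℕ => (b : ℝ) ^ d) atTop atTop :=
    (tendsto_pow_atTop (by have := hS.hd; omega)).comp tendsto_natCast_atTop_atTop
  have hc2 : Tendsto (fun b : ℕ => ρ ^ r * (PS On h H v Λ w (gd δ) ρ ((b : ℝ) ^ d) /
      ((b : ℝ) ^ d) ^ (2 * r))) atTop (nhds L) := (hc.comp hpow).const_mul _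
  have hev : ∀ᶠ b : ℕ in atTop,
      |NG hU w (gd δ) (((b : ℝ) ^ d) ^ 2 / ρ) / (((b : ℝ) ^ d) ^ 2 / ρ) ^ r - L| ≤ ε / 4 := by
    have h1 : ∀ᶠ b : ℕ in atTop, |ρ ^ r * (PS On h H v Λ w (gd δ) ρ ((b : ℝ) ^ d) /
        ((b : ℝ) ^ d) ^ (2 * r)) - L| < ε / 8 := by
      have := Metric.tendsto_nhds.mp hc2 (ε / 8) (by positivity)
      exact this
    filter_upwards [h1, eventually_ge_atTop 1, hpow.eventually_ge_atTop ρ] with b hb1 hb2 hb3
    have hT1 : 1 ≤ (b : ℝ) ^ d := one_le_pow₀ (by exact_mod_cast hb2)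
    have hρb : ρ ≤ ((b : ℝ) ^ d) ^ 2 := by nlinarith
    have h2 := hρ (gd δ) (gd_nonneg δ) (gd_le_one δ)
      (fun u hu => gd_eq_zero δ u hδ0 (by linarith)) b hb2 hρb
    generalize NG hU w (gd δ) (((b : ℝ) ^ d) ^ 2 / ρ) = X at *
    generalize PS On h H v Λ w (gd δ) ρ ((b : ℝ) ^ d) = P at *
    generalize (b : ℝ) ^ d = T at *
    have hT0 : 0 < T := by linarith
    have e1 : (T ^ 2 / ρ) ^ r = T ^ (2 * r) / ρ ^ r := by
      rw [div_pow, ← pow_mul]
    have h3 : |X / (T ^ 2 / ρ) ^ r - ρ ^ r * (P / T ^ (2 * r))| ≤ ε / 8 := by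
      have e2 : X / (T ^ 2 / ρ) ^ r - ρ ^ r * (P / T ^ (2 * r)) = (X - P) / (T ^ 2 / ρ) ^ r := by
        rw [e1]; field_simp
      have hpos : 0 < (T ^ 2 / ρ) ^ r := by positivity
      rw [e2, abs_div, abs_of_pos hpos, div_le_iff₀ hpos]
      exact h2
    calc |X / (T ^ 2 / ρ) ^ r - L| ≤ |X / (T ^ 2 / ρ) ^ r - ρ ^ r * (P / T ^ (2 * r))| +
        |ρ ^ r * (P / T ^ (2 * r)) - L| := abs_sub_le _ _ _
      _ ≤ ε / 8 + ε / 8 := by linarith
      _ = ε / 4 := by ring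
  have hall := interp (NG hU w (gd δ)) (NG_nonneg hU w hw0 δ)
    (NG_mono hS hU w hw0 δ hδ0) ρ hρ0 d r hS.hd L (ε / 4) (by positivity) hev
  refine ⟨L, ?_⟩
  have hshift : Tendsto (fun B : ℝ => B / (1 + δ)) atTop atTop :=
    tendsto_id.atTop_div_const (by linarith)
  filter_upwards [hall, hshift.eventually hall, hshift.eventually_ge_atTop 1,
    eventually_ge_atTop 1] with B h1 h2 h3 h4
  change |(∑ᶠ W ∈ {W : PL | H W ≤ B}, w W) / B ^ r - L| ≤ ε
  rw [NN_eq hU]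
  have hB0 : 0 < B := by linarith
  have hδ' : 0 < 1 + δ := by linarith
  have k1 := NN_le hU w hw0 δ hδ0 B hB0
  have k2 := NG_le_NN hU w hw0 δ hδ0 (B / (1 + δ)) (by positivity)
  have e3 : (1 + δ) * (B / (1 + δ)) = B := by field_simp
  rw [e3] at k2
  have k3 := NG_le hU w hw1 δ (B / (1 + δ)) h3
  rw [← hM] at k3
  rw [abs_le] at h1 h2 ⊢
  have hBp : 0 < B ^ r := by positivity
  have hBp2 : 0 < (B / (1 + δ)) ^ r := by positivity
  constructor
  · set G2 : ℝ := NG hU w (gd δ) (B / (1 + δ)) / (B / (1 + δ)) ^ r with hG2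
    have g1 : L - 2 * (ε / 4) ≤ G2 := by linarith [h2.1]
    have g2 : G2 ≤ M := by
      rw [hG2, div_le_iff₀ hBp2]
      exact k3
    have g3 : G2 * (1 / (1 + δ) ^ r) ≤ NN hU w B / B ^ r := by
      calc G2 * (1 / (1 + δ) ^ r) = NG hU w (gd δ) (B / (1 + δ)) / B ^ r := by
            rw [hG2, div_pow]; field_simp
        _ ≤ NN hU w B / B ^ r := by gcongr
    have g4 : G2 * (1 - 1 / (1 + δ) ^ r) ≤ ε / 2 := by
      have : 0 ≤ 1 - 1 / (1 + δ) ^ r := by
        have : 1 / (1 + δ) ^ r ≤ 1 := by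
          rw [div_le_one (by positivity)]
          exact one_le_pow₀ (by linarith)
        linarith
      calc G2 * (1 - 1 / (1 + δ) ^ r) ≤ M * (1 - 1 / (1 + δ) ^ r) := by gcongr
        _ ≤ ε / 2 := hδM
    linarith
  · have : NN hU w B / B ^ r ≤ NG hU w (gd δ) B / B ^ r := by gcongr
    linarith [h1.2]

end Pool.Agent.Q238.GM
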