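import Pool.Agent.Q35.GM.Stm

/-!
Job GM-CAU, part 1: the lines of bounded height in a plane.
-/

set_option autoImplicit false

namespace Pool.Agent.Q238.GM

open Pool.Agent.Q35.GM

section

variable {PL L : Type} {On : L → PL → Prop} {h : L → ℝ} {H v : PL → ℝ} {Λ : ℝ → ℝ} {r d : ℕ}
  {C η C' : ℝ}

open Classical in
/-- The lines of height at most `T` in the plane `W`. -/
noncomputable def AW (hS : Sys On h H v Λ r d C η) (W : PL) (T : ℝ) : Finset L :=
  (hS.fin T).toFinset.filter fun l => On l W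

theorem mem_AW (hS : Sys On h H v Λ r d C η) (W : PL) (T : ℝ) (l : L) :
    l ∈ AW hS W T ↔ On l W ∧ h l ≤ T := by
  simp only [AW, Finset.mem_filter, Set.Finite.mem_toFinset, Set.mem_ofPred_eq]
  tauto

theorem coe_AW (hS : Sys On h H v Λ r d C η) (W : PL) (T : ℝ) :
    {l | On l W ∧ h l ≤ T} = (AW hS W T : Set L) := by
  ext l
  rw [Finset.mem_coe, mem_AW]
  rfl

/-- The weighted number of the lines of height at most `T` in `W`. -/
noncomputable def SW (hS : Sys On h H v Λ r d C η) (W : PL) (T : ℝ) : ℝ :=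
  ∑ l ∈ AW hS W T, Λ (T / h l)

theorem SW_eq (hS : Sys On h H v Λ r d C η) (W : PL) (T : ℝ) :
    ∑ᶠ l ∈ {l | On l W ∧ h l ≤ T}, Λ (T / h l) = SW hS W T := by
  rw [coe_AW hS, finsum_mem_coe_finset, SW]

theorem dy1 (x : ℝ) (J : ℕ) (hx1 : 1 ≤ x) (hJ : x < 2 ^ J) :
    x ≤ 2 * ∑ j ∈ Finset.range J, if (2 : ℝ) ^ j ≤ x then (2 : ℝ) ^ j else 0 := by
  obtain ⟨n, hn1, hn2⟩ := exists_nat_pow_near hx1 (one_lt_two : (1 : ℝ) < 2)
  have hnJ : n < J := by
    by_contra hc
    push Not at hc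
    have : (2 : ℝ) ^ J ≤ 2 ^ n := pow_le_pow_right₀ (by norm_num) hc
    linarith
  have h1 : (if (2 : ℝ) ^ n ≤ x then (2 : ℝ) ^ n else 0) ≤
      ∑ j ∈ Finset.range J, if (2 : ℝ) ^ j ≤ x then (2 : ℝ) ^ j else 0 := by
    apply Finset.single_le_sum (f := fun j => if (2 : ℝ) ^ j ≤ x then (2 : ℝ) ^ j else 0)
    · intro j _
      split_ifs <;> positivity
    · exact Finset.mem_range.mpr hnJ
  rw [if_pos hn1] at h1
  rw [pow_succ] at hn2
  linarith

theorem dy2 (J : ℕ) : ∑ j ∈ Finset.range J, ((1 : ℝ) / 2) ^ j ≤ 2 := by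
  have := Summable.sum_le_tsum (Finset.range J) (fun j _ => by positivity)
    (summable_geometric_two)
  rwa [tsum_geometric_two] at this

theorem dyadic (hS : Sys On h H v Λ r d C η) (hU : Ubd On h H r C') (W : PL) (T : ℝ)
    (hT : 1 ≤ T) (h2 : 2 ≤ (AW hS W T).card) :
    ∑ l ∈ AW hS W T, T / h l ≤ (4 * C' + C) * (T ^ 2 / H W) := by
  classical
  have hT0 : 0 < T := by linarith
  have hH : 0 < H W := by linarith [hS.one_le_H W]
  have hC'1 := hU.one_le
  have hC1 := hS.hC
  have hh : ∀ l, 0 < h l := fun l => by linarith [hS.one_le_h l]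
  obtain ⟨l0, hl0, hmin⟩ := Finset.exists_min_image (AW hS W T) h
    (Finset.card_pos.mp (by omega))
  obtain ⟨l1, hl1, hne⟩ : ∃ l1 ∈ AW hS W T, l1 ≠ l0 := Finset.exists_mem_ne (by omega) l0
  rw [← Finset.add_sum_erase _ _ hl0]
  have p1 : T / h l0 ≤ C * (T ^ 2 / H W) := by
    have := hS.upper l0 l1 W hne.symm ((mem_AW hS W T l0).mp hl0).1 ((mem_AW hS W T l1).mp hl1).1
    have h3 : h l1 ≤ T := ((mem_AW hS W T l1).mp hl1).2
    have h4 : H W ≤ C * (h l0 * T) := by
      refine this.trans ?_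
      have := hh l0
      gcongr
    rw [div_le_iff₀ (hh l0)]
    have e : C * (T ^ 2 / H W) * h l0 = T * (C * (h l0 * T)) / H W := by ring
    rw [e, le_div_iff₀ hH]
    gcongr
  obtain ⟨J, hJ⟩ := pow_unbounded_of_one_lt T (one_lt_two : (1 : ℝ) < 2)
  have p2 : ∑ l ∈ (AW hS W T).erase l0, T / h l ≤ 4 * C' * (T ^ 2 / H W) := by
    have q1 : ∀ l ∈ (AW hS W T).erase l0, T / h l ≤
        2 * ∑ j ∈ Finset.range J, if (2 : ℝ) ^ j ≤ T / h l then (2 : ℝ) ^ j else 0 := by
      intro l hl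
      rw [Finset.mem_erase, mem_AW] at hl
      apply dy1
      · rw [le_div_iff₀ (hh l)]
        linarith [hl.2.2]
      · refine lt_of_le_of_lt ?_ hJ
        exact div_le_self hT0.le (hS.one_le_h l)
    refine (Finset.sum_le_sum q1).trans ?_
    rw [← Finset.mul_sum, Finset.sum_comm]
    have q2 : ∀ j ∈ Finset.range J, (∑ l ∈ (AW hS W T).erase l0,
        if (2 : ℝ) ^ j ≤ T / h l then (2 : ℝ) ^ j else 0) ≤
        C' * (T ^ 2 / H W) * ((1 : ℝ) / 2) ^ j := by
      intro j _
      rw [← Finset.sum_filter, Finset.sum_const, nsmul_eq_mul]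
      set F := (AW hS W T).erase l0 |>.filter fun l => (2 : ℝ) ^ j ≤ T / h l with hF
      have hpj : (0 : ℝ) < 2 ^ j := by positivity
      have key : (F.card : ℝ) ≤ C' * ((T / 2 ^ j) ^ 2 / H W) := by
        rcases F.eq_empty_or_nonempty with he | ⟨l, hl⟩
        · rw [he]; simp; positivity
        · have hFsub : F ⊆ AW hS W (T / 2 ^ j) := by
            intro m hm
            rw [hF, Finset.mem_filter, Finset.mem_erase, mem_AW] at hm
            rw [mem_AW]
            refine ⟨hm.1.2.1, ?_⟩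
            have := hm.2
            rw [le_div_iff₀ (hh m)] at this
            rw [le_div_iff₀ hpj]
            linarith
          have hl' := hl
          rw [hF, Finset.mem_filter, Finset.mem_erase] at hl'
          have hl0m : l0 ∈ AW hS W (T / 2 ^ j) := by
            have := hFsub hl
            rw [mem_AW] at this ⊢
            exact ⟨((mem_AW hS W T l0).mp hl0).1, (hmin l hl'.1.2).trans this.2⟩
          have hc2 : 2 ≤ (AW hS W (T / 2 ^ j)).card := by
            have : 1 < (AW hS W (T / 2 ^ j)).card := by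
              rw [Finset.one_lt_card]
              exact ⟨l, hFsub hl, l0, hl0m, hl'.1.1⟩
            omega
          have := hU.cnt W (T / 2 ^ j) (by rw [coe_AW hS, Set.ncard_coe_finset]; exact hc2)
          rw [coe_AW hS, Set.ncard_coe_finset] at this
          refine le_trans ?_ this
          exact_mod_cast Finset.card_le_card hFsub
      calc (F.card : ℝ) * 2 ^ j ≤ C' * ((T / 2 ^ j) ^ 2 / H W) * 2 ^ j := by gcongr
        _ = C' * (T ^ 2 / H W) * ((1 : ℝ) / 2) ^ j := by
          rw [div_pow, div_pow, one_pow]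
          field_simp
    calc 2 * ∑ j ∈ Finset.range J, (∑ l ∈ (AW hS W T).erase l0,
        if (2 : ℝ) ^ j ≤ T / h l then (2 : ℝ) ^ j else 0) ≤
        2 * ∑ j ∈ Finset.range J, C' * (T ^ 2 / H W) * ((1 : ℝ) / 2) ^ j := by
          have := Finset.sum_le_sum q2
          linarith
      _ = 2 * (C' * (T ^ 2 / H W)) * ∑ j ∈ Finset.range J, ((1 : ℝ) / 2) ^ j := by
          rw [← Finset.mul_sum]; ring
      _ ≤ 2 * (C' * (T ^ 2 / H W)) * 2 := by
          have := dy2 J
          gcongr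
      _ = 4 * C' * (T ^ 2 / H W) := by ring
  linarith

theorem SW_nonneg (hS : Sys On h H v Λ r d C η) (W : PL) (T : ℝ) : 0 ≤ SW hS W T :=
  Finset.sum_nonneg fun _ _ => hS.lam.nonneg _

theorem SW_le (hS : Sys On h H v Λ r d C η) (hU : Ubd On h H r C') (W : PL) (T : ℝ)
    (hT : 1 ≤ T) (h2 : 2 ≤ (AW hS W T).card) :
    SW hS W T ≤ C * (4 * C' + C) * (T ^ 2 / H W) := by
  have hC1 := hS.hC
  calc SW hS W T ≤ ∑ l ∈ AW hS W T, C * (T / h l) := by
        apply Finset.sum_le_sum
        intro l hl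
        rw [mem_AW] at hl
        apply hS.lam.le
        rw [le_div_iff₀ (by linarith [hS.one_le_h l])]
        linarith [hl.2]
    _ = C * ∑ l ∈ AW hS W T, T / h l := by rw [Finset.mul_sum]
    _ ≤ C * ((4 * C' + C) * (T ^ 2 / H W)) := by
        have := dyadic hS hU W T hT h2
        gcongr
    _ = _ := by ring

open Classical in
/-- The weighted number of the pairs of distinct lines. -/
noncomputable def PR (hS : Sys On h H v Λ r d C η) (W : PL) (T : ℝ) : ℝ :=
  ∑ p ∈ (AW hS W T).offDiag, Λ (T / h p.1) * Λ (T / h p.2)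

theorem PR_eq (hS : Sys On h H v Λ r d C η) (W : PL) (T : ℝ) :
    PR hS W T = SW hS W T ^ 2 - ∑ l ∈ AW hS W T, Λ (T / h l) ^ 2 := by
  classical
  have h1 : SW hS W T ^ 2 = ∑ p ∈ AW hS W T ×ˢ AW hS W T, Λ (T / h p.1) * Λ (T / h p.2) := by
    rw [sq, SW, Finset.sum_mul_sum, Finset.sum_product]
  have h2 : ∑ l ∈ AW hS W T, Λ (T / h l) ^ 2 =
      ∑ p ∈ (AW hS W T).diag, Λ (T / h p.1) * Λ (T / h p.2) := by
    rw [Finset.sum_diag]
    exact Finset.sum_congr rfl fun l _ => by ring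
  have h3 := Finset.sum_union (Finset.disjoint_diag_offDiag (AW hS W T))
    (f := fun p => Λ (T / h p.1) * Λ (T / h p.2))
  rw [Finset.diag_union_offDiag] at h3
  rw [h1, h2, h3, PR]
  simp only [add_sub_cancel_left]

theorem PR_nonneg (hS : Sys On h H v Λ r d C η) (W : PL) (T : ℝ) : 0 ≤ PR hS W T :=
  Finset.sum_nonneg fun _ _ => mul_nonneg (hS.lam.nonneg _) (hS.lam.nonneg _)

theorem PR_le (hS : Sys On h H v Λ r d C η) (W : PL) (T : ℝ) : PR hS W T ≤ SW hS W T ^ 2 := by
  rw [PR_eq]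
  have : 0 ≤ ∑ l ∈ AW hS W T, Λ (T / h l) ^ 2 := Finset.sum_nonneg fun _ _ => by positivity
  linarith

/-- The normalised number of pairs. -/
noncomputable def XW (hS : Sys On h H v Λ r d C η) (W : PL) (T : ℝ) : ℝ :=
  (H W / T ^ 2) ^ 2 / v W ^ 2 * PR hS W T

theorem v_pos (hS : Sys On h H v Λ r d C η) (W : PL) : 0 < v W := by
  have := hS.hC
  have h1 := (hS.v_bd W).1
  have : 0 < 1 / C := by positivity
  linarith

theorem XW_nonneg (hS : Sys On h H v Λ r d C η) (W : PL) (T : ℝ) : 0 ≤ XW hS W T := by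
  have := PR_nonneg hS W T
  unfold XW
  positivity

theorem inv_v_le (hS : Sys On h H v Λ r d C η) (W : PL) : 1 / v W ^ 2 ≤ C ^ 2 := by
  have hC := hS.hC
  have h1 := (hS.v_bd W).1
  have h0 := v_pos hS W
  have : 1 / v W ≤ C := by
    rw [div_le_iff₀ h0]
    rw [div_le_iff₀ (by linarith)] at h1
    linarith
  calc 1 / v W ^ 2 = (1 / v W) ^ 2 := by rw [div_pow, one_pow]
    _ ≤ C ^ 2 := by gcongr

theorem XW_le (hS : Sys On h H v Λ r d C η) (hU : Ubd On h H r C') (W : PL) (T : ℝ)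
    (hT : 1 ≤ T) : XW hS W T ≤ C ^ 2 * (C * (4 * C' + C)) ^ 2 := by
  have hC1 := hS.hC
  have hC'1 := hU.one_le
  have hH : 0 < H W := by linarith [hS.one_le_H W]
  have hT0 : 0 < T := by linarith
  by_cases hc : 2 ≤ (AW hS W T).card
  · have h1 := SW_le hS hU W T hT hc
    have h2 := PR_le hS W T
    have h3 := SW_nonneg hS W T
    have h4 : PR hS W T ≤ (C * (4 * C' + C) * (T ^ 2 / H W)) ^ 2 := h2.trans (by gcongr)
    have h5 := inv_v_le hS W
    have hv := v_pos hS W
    calc XW hS W T = 1 / v W ^ 2 * ((H W / T ^ 2) ^ 2 * PR hS W T) := by unfold XW; ring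
      _ ≤ C ^ 2 * ((H W / T ^ 2) ^ 2 * (C * (4 * C' + C) * (T ^ 2 / H W)) ^ 2) := by
          have := PR_nonneg hS W T
          gcongr
      _ = C ^ 2 * (C * (4 * C' + C)) ^ 2 := by
          field_simp
  · have h0 : PR hS W T = 0 := by
      classical
      unfold PR
      apply Finset.sum_eq_zero
      intro p hp
      exfalso
      rw [Finset.mem_offDiag] at hp
      apply hc
      have : 1 < (AW hS W T).card := by
        rw [Finset.one_lt_card]
        exact ⟨p.1, hp.1, p.2, hp.2.1, hp.2.2⟩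
      omega
    unfold XW
    rw [h0, mul_zero]
    positivity

/-- The error in the number of pairs. -/
noncomputable def EE (C η s : ℝ) : ℝ :=
  C ^ 2 * (C * s ^ η * (2 * C + C * s ^ η) + C * s * (C + C * s ^ η))

theorem XW_near (hS : Sys On h H v Λ r d C η) (W : PL) (b : ℕ) (κ s : ℝ) (hκ : 0 < κ)
    (hb : 1 ≤ b) (hs : 0 < s) (hs1 : C * s ≤ 1) (hns : ∀ l, On l W → κ * H W ≤ h l ^ 2)
    (hHT : H W ≤ κ * s ^ 2 * ((b : ℝ) ^ d) ^ 2) : |XW hS W ((b : ℝ) ^ d) - 1| ≤ EE C η s := by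
  have hC1 := hS.hC
  have hH : 0 < H W := by linarith [hS.one_le_H W]
  have hη := hS.hη
  have hb1 : (1 : ℝ) ≤ b := by exact_mod_cast hb
  set T : ℝ := (b : ℝ) ^ d with hTdef
  have hT : 1 ≤ T := one_le_pow₀ hb1
  have hT0 : 0 < T := by linarith
  have hv := v_pos hS W
  have hvC := (hS.v_bd W).2
  set a : ℝ := Real.sqrt (κ * H W) with ha
  have ha0 : 0 < a := Real.sqrt_pos.mpr (by positivity)
  have ha2 : a ^ 2 = κ * H W := Real.sq_sqrt (by positivity)
  have hal : ∀ l, On l W → a ≤ h l := by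
    intro l hl
    have h0 := hS.one_le_h l
    rw [ha]
    apply Real.sqrt_le_iff.mpr
    exact ⟨by linarith, hns l hl⟩
  have hHa : H W / a ≤ s * T := by
    rw [div_le_iff₀ ha0]
    have h1 : H W ^ 2 ≤ (s * T * a) ^ 2 := by
      rw [mul_pow, mul_pow, ha2]
      calc H W ^ 2 = H W * H W := by ring
        _ ≤ (κ * s ^ 2 * T ^ 2) * H W := by gcongr
        _ = s ^ 2 * T ^ 2 * (κ * H W) := by ring
    exact le_of_sq_le_sq h1 (by positivity)
  have hcond : C * H W / a ≤ T := by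
    calc C * H W / a = C * (H W / a) := by ring
      _ ≤ C * (s * T) := by gcongr
      _ = (C * s) * T := by ring
      _ ≤ 1 * T := by gcongr
      _ = T := one_mul T
  have havg := hS.avg W a b ha0 hal hcond
  rw [← hTdef, SW_eq hS] at havg
  have hHaT : H W / (a * T) ≤ s := by
    rw [← div_div, div_le_iff₀ hT0]
    exact hHa
  have hpow : (H W / (a * T)) ^ η ≤ s ^ η := by
    apply Real.rpow_le_rpow (by positivity) hHaT hη.le
  set σ : ℝ := SW hS W T * (H W / T ^ 2) with hσ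
  have hσ0 : 0 ≤ σ := by
    have := SW_nonneg hS W T
    positivity
  have hσv : |σ - v W| ≤ C * s ^ η := by
    have e : σ - v W = (SW hS W T - v W * T ^ 2 / H W) * (H W / T ^ 2) := by
      rw [hσ]; field_simp
    rw [e, abs_mul, abs_of_nonneg (by positivity : 0 ≤ H W / T ^ 2)]
    calc |SW hS W T - v W * T ^ 2 / H W| * (H W / T ^ 2) ≤
        (C * (T ^ 2 / H W) * (H W / (a * T)) ^ η) * (H W / T ^ 2) := by gcongr
      _ = C * (H W / (a * T)) ^ η := by field_simp
      _ ≤ C * s ^ η := by gcongr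
  have hσle : σ ≤ C + C * s ^ η := by
    have := (abs_le.mp hσv).2
    linarith
  set q : ℝ := (∑ l ∈ AW hS W T, Λ (T / h l) ^ 2) * (H W / T ^ 2) ^ 2 with hq
  have hq0 : 0 ≤ q := by
    have : 0 ≤ ∑ l ∈ AW hS W T, Λ (T / h l) ^ 2 := Finset.sum_nonneg fun _ _ => by positivity
    positivity
  have hqle : q ≤ C * s * (C + C * s ^ η) := by
    have h1 : ∑ l ∈ AW hS W T, Λ (T / h l) ^ 2 ≤ C * (T / a) * SW hS W T := by
      rw [SW, Finset.mul_sum]
      apply Finset.sum_le_sum
      intro l hl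
      rw [mem_AW] at hl
      have h0 := hS.one_le_h l
      have hl0 : 0 < h l := by linarith
      have h2 : Λ (T / h l) ≤ C * (T / h l) := by
        apply hS.lam.le
        rw [le_div_iff₀ hl0]
        linarith [hl.2]
      have h3 : T / h l ≤ T / a := by
        have := hal l hl.1
        gcongr
      have h4 := hS.lam.nonneg (T / h l)
      rw [sq]
      apply mul_le_mul_of_nonneg_right _ h4
      refine h2.trans ?_
      gcongr
    calc q ≤ (C * (T / a) * SW hS W T) * (H W / T ^ 2) ^ 2 := by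
          rw [hq]; gcongr
      _ = C * (H W / (a * T)) * σ := by
          rw [hσ]; field_simp
      _ ≤ C * s * (C + C * s ^ η) := by
          gcongr
  have hX : XW hS W T - 1 = 1 / v W ^ 2 * ((σ - v W) * (σ + v W) - q) := by
    have e1 : XW hS W T = 1 / v W ^ 2 * (σ ^ 2 - q) := by
      unfold XW
      rw [PR_eq, hσ, hq]
      ring
    rw [e1]
    field_simp
    ring
  rw [hX, abs_mul, abs_of_nonneg (by positivity : 0 ≤ 1 / v W ^ 2)]
  unfold EE
  have h6 : |(σ - v W) * (σ + v W) - q| ≤ C * s ^ η * (2 * C + C * s ^ η) +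
      C * s * (C + C * s ^ η) := by
    calc |(σ - v W) * (σ + v W) - q| ≤ |(σ - v W) * (σ + v W)| + |q| := abs_sub _ _
      _ = |σ - v W| * (σ + v W) + q := by
          rw [abs_mul, abs_of_nonneg hq0, abs_of_nonneg (by positivity : 0 ≤ σ + v W)]
      _ ≤ C * s ^ η * (2 * C + C * s ^ η) + C * s * (C + C * s ^ η) := by
          have : σ + v W ≤ 2 * C + C * s ^ η := by linarith
          have h0 : 0 ≤ C * s ^ η := by positivity
          gcongr
  have h7 := inv_v_le hS W
  gcongr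

end

end Pool.Agent.Q238.GM
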