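import Pool.Agent.Q238.GM.Cau1

/-!
Job GM-CAU, part 2: the weighted number of the planes and the weighted number of the pairs of lines.
-/

set_option autoImplicit false

namespace Pool.Agent.Q238.GM

open Pool.Agent.Q35.GM

section

variable {PL L : Type} {On : L → PL → Prop} {h : L → ℝ} {H v : PL → ℝ} {Λ : ℝ → ℝ} {r d : ℕ}
  {C η C' : ℝ}

/-- The planes of height at most `B`. -/
noncomputable def PB (hU : Ubd On h H r C') (B : ℝ) : Finset PL := (hU.fin B).toFinset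

theorem mem_PB (hU : Ubd On h H r C') (B : ℝ) (W : PL) : W ∈ PB hU B ↔ H W ≤ B := by
  simp [PB]

theorem coe_PB (hU : Ubd On h H r C') (B : ℝ) : {W : PL | H W ≤ B} = (PB hU B : Set PL) := by
  ext W
  rw [Finset.mem_coe, mem_PB]
  rfl

/-- The weighted number of the planes. -/
noncomputable def NG (hU : Ubd On h H r C') (w : PL → ℝ) (g : ℝ → ℝ) (B : ℝ) : ℝ :=
  ∑ W ∈ PB hU (2 * B), w W * g (H W / B)

theorem PS_eq (hS : Sys On h H v Λ r d C η) (hU : Ubd On h H r C') (w : PL → ℝ) (g : ℝ → ℝ)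
    (hg : ∀ u, 2 ≤ u → g u = 0) (ρ T : ℝ) (hρ : 0 < ρ) (hT : 1 ≤ T) :
    PS On h H v Λ w g ρ T =
      ∑ W ∈ PB hU (2 * (T ^ 2 / ρ)), w W * g (H W / (T ^ 2 / ρ)) * XW hS W T := by
  classical
  have hT0 : 0 < T := by linarith
  unfold PS
  set F : (L × L) × PL → ℝ := fun p =>
    Λ (T / h p.1.1) * Λ (T / h p.1.2) * (H p.2 / T ^ 2) ^ 2 * g (ρ * (H p.2 / T ^ 2)) *
      (w p.2 / v p.2 ^ 2) with hF
  set LT : Finset L := (hS.fin T).toFinset with hLT
  have hmL : ∀ l, l ∈ LT ↔ h l ≤ T := fun l => by simp [hLT]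
  set t : Finset ((L × L) × PL) := ((LT ×ˢ LT) ×ˢ PB hU (2 * (T ^ 2 / ρ))).filter fun p =>
    p.1.1 ≠ p.1.2 ∧ On p.1.1 p.2 ∧ On p.1.2 p.2 with ht
  have hgarg : ∀ W, ρ * (H W / T ^ 2) = H W / (T ^ 2 / ρ) := fun W => by field_simp
  have h1 : ∑ᶠ p ∈ {p : (L × L) × PL | p.1.1 ≠ p.1.2 ∧ On p.1.1 p.2 ∧ On p.1.2 p.2 ∧
      h p.1.1 ≤ T ∧ h p.1.2 ≤ T}, F p = ∑ p ∈ t, F p := by
    apply finsum_mem_eq_sum_of_inter_support_eq
    ext p
    simp only [Set.mem_inter_iff, Set.mem_ofPred_eq, Function.mem_support, ht, Finset.coe_filter,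
      Finset.mem_product, hmL, mem_PB]
    constructor
    · rintro ⟨⟨h1, h2, h3, h4, h5⟩, h6⟩
      refine ⟨⟨⟨⟨h4, h5⟩, ?_⟩, h1, h2, h3⟩, h6⟩
      by_contra hc
      push Not at hc
      apply h6
      have : g (ρ * (H p.2 / T ^ 2)) = 0 := by
        apply hg
        rw [hgarg, le_div_iff₀ (by positivity)]
        linarith
      simp only [hF, this, mul_zero, zero_mul]
    · rintro ⟨⟨⟨⟨h4, h5⟩, h7⟩, h1, h2, h3⟩, h6⟩
      exact ⟨⟨h1, h2, h3, h4, h5⟩, h6⟩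
  rw [h1, ht, Finset.sum_filter, Finset.sum_product_right]
  apply Finset.sum_congr rfl
  intro W _
  rw [← Finset.sum_filter]
  have h2 : ((LT ×ˢ LT).filter fun x : L × L => x.1 ≠ x.2 ∧ On x.1 W ∧ On x.2 W) =
      (AW hS W T).offDiag := by
    ext p
    simp only [Finset.mem_filter, Finset.mem_product, Finset.mem_offDiag, hmL, mem_AW]
    tauto
  rw [h2]
  unfold XW PR
  rw [Finset.mul_sum, Finset.mul_sum]
  apply Finset.sum_congr rfl
  intro p _
  simp only [hF, hgarg]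
  ring

theorem ex_s (C η e : ℝ) (hη : 0 < η) (he : 0 < e) (hC : 1 ≤ C) :
    ∃ s, 0 < s ∧ C * s ≤ 1 ∧ EE C η s ≤ e := by
  have hcont : Continuous fun s : ℝ => EE C η s := by
    unfold EE
    have : Continuous fun s : ℝ => s ^ η :=
      continuous_id.rpow_const fun _ => Or.inr hη.le
    fun_prop
  have h0 : EE C η 0 = 0 := by
    unfold EE
    rw [Real.zero_rpow hη.ne']
    ring
  have h1 := (hcont.tendsto 0).eventually (gt_mem_nhds (by rw [h0]; exact he : EE C η 0 < e))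
  rw [Metric.eventually_nhds_iff] at h1
  obtain ⟨δ, hδ, h2⟩ := h1
  have hC0 : 0 < C := by linarith
  refine ⟨min (δ / 2) (1 / C), by positivity, ?_, ?_⟩
  · calc C * min (δ / 2) (1 / C) ≤ C * (1 / C) := by
          have := min_le_right (δ / 2) (1 / C)
          gcongr
      _ = 1 := by field_simp
  · have h3 : dist (min (δ / 2) (1 / C)) 0 < δ := by
      rw [Real.dist_0_eq_abs, abs_of_nonneg (by positivity)]
      have := min_le_left (δ / 2) (1 / C)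
      linarith
    exact (h2 h3).le

theorem claimA (hS : Sys On h H v Λ r d C η) (hU : Ubd On h H r C') (w : PL → ℝ)
    (hw0 : ∀ W, 0 ≤ w W) (hw1 : ∀ W, w W ≤ 1) (ε : ℝ) (hε : 0 < ε) :
    ∃ ρ : ℝ, 1 ≤ ρ ∧ ∀ g : ℝ → ℝ, (∀ u, 0 ≤ g u) → (∀ u, g u ≤ 1) → (∀ u, 2 ≤ u → g u = 0) →
      ∀ b : ℕ, 1 ≤ b → ρ ≤ ((b : ℝ) ^ d) ^ 2 →
        |NG hU w g (((b : ℝ) ^ d) ^ 2 / ρ) - PS On h H v Λ w g ρ ((b : ℝ) ^ d)| ≤
          ε * (((b : ℝ) ^ d) ^ 2 / ρ) ^ r := by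
  classical
  have hC1 := hS.hC
  have hC'1 := hU.one_le
  set K1 : ℝ := C ^ 2 * (C * (4 * C' + C)) ^ 2 with hK1
  have hK10 : 0 ≤ K1 := by positivity
  set κ : ℝ := ε / (2 * (1 + K1) * C' * 2 ^ r) with hκ
  have hκ0 : 0 < κ := by positivity
  obtain ⟨s, hs0, hCs, hEE⟩ := ex_s C η (ε / (2 * C' * 2 ^ r)) hS.hη (by positivity) hC1
  refine ⟨max 1 (2 / (κ * s ^ 2)), le_max_left _ _, ?_⟩
  set ρ : ℝ := max 1 (2 / (κ * s ^ 2)) with hρ
  have hρ1 : 1 ≤ ρ := le_max_left _ _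
  have hρ0 : 0 < ρ := by linarith
  have hρ2 : 2 / ρ ≤ κ * s ^ 2 := by
    have : 2 / (κ * s ^ 2) ≤ ρ := le_max_right _ _
    rw [div_le_iff₀ (by positivity)] at this
    rw [div_le_iff₀ hρ0]
    linarith
  intro g hg0 hg1 hg2 b hb hρb
  set T : ℝ := (b : ℝ) ^ d with hT
  have hT1 : 1 ≤ T := one_le_pow₀ (by exact_mod_cast hb)
  have hT0 : 0 < T := by linarith
  set B : ℝ := T ^ 2 / ρ with hB
  have hB1 : 1 ≤ B := by
    rw [hB, le_div_iff₀ hρ0]; linarith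
  have hB0 : 0 < B := by linarith
  rw [PS_eq hS hU w g hg2 ρ T hρ0 hT1, NG, ← hB, ← Finset.sum_sub_distrib]
  set SK : Finset PL := (PB hU (2 * B)).filter fun W => ∃ l, On l W ∧ h l ^ 2 ≤ κ * H W with hSK
  set NS : Finset PL := (PB hU (2 * B)).filter fun W => ¬ ∃ l, On l W ∧ h l ^ 2 ≤ κ * H W
    with hNS
  have hterm : ∀ W, |w W * g (H W / B) - w W * g (H W / B) * XW hS W T| ≤ |XW hS W T - 1| := by
    intro W
    have e : w W * g (H W / B) - w W * g (H W / B) * XW hS W T =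
        (w W * g (H W / B)) * (1 - XW hS W T) := by ring
    rw [e, abs_mul, abs_sub_comm 1]
    have h1 : |w W * g (H W / B)| ≤ 1 := by
      rw [abs_of_nonneg (mul_nonneg (hw0 W) (hg0 _))]
      exact mul_le_one₀ (hw1 W) (hg0 _) (hg1 _)
    have h2 := abs_nonneg (XW hS W T - 1)
    nlinarith
  refine (Finset.abs_sum_le_sum_abs _ _).trans ((Finset.sum_le_sum fun W _ => hterm W).trans ?_)
  rw [← Finset.sum_filter_add_sum_filter_not (PB hU (2 * B))
    (fun W => ∃ l, On l W ∧ h l ^ 2 ≤ κ * H W)]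
  have hskew : ∑ W ∈ SK, |XW hS W T - 1| ≤ (C' * κ * (2 * B) ^ r) * (1 + K1) := by
    have h1 : ∀ W ∈ SK, |XW hS W T - 1| ≤ 1 + K1 := by
      intro W _
      have h2 := XW_nonneg hS W T
      have h3 := XW_le hS hU W T hT1
      rw [abs_le]
      constructor <;> linarith
    refine (Finset.sum_le_sum h1).trans ?_
    rw [Finset.sum_const, nsmul_eq_mul]
    have h4 := hU.skew (2 * B) κ (by linarith) hκ0
    have h5 : {W : PL | H W ≤ 2 * B ∧ ∃ l, On l W ∧ h l ^ 2 ≤ κ * H W} = (SK : Set PL) := by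
      ext W
      simp only [hSK, Finset.coe_filter, mem_PB, Set.mem_ofPred_eq]
    rw [h5, Set.ncard_coe_finset] at h4
    gcongr
  have hnonskew : ∑ W ∈ NS, |XW hS W T - 1| ≤ (C' * (2 * B) ^ r) * (ε / (2 * C' * 2 ^ r)) := by
    have h1 : ∀ W ∈ NS, |XW hS W T - 1| ≤ ε / (2 * C' * 2 ^ r) := by
      intro W hW
      rw [hNS, Finset.mem_filter, mem_PB] at hW
      refine (XW_near hS W b κ s hκ0 hb hs0 hCs ?_ ?_).trans hEE
      · intro l hl
        by_contra hc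
        push Not at hc
        exact hW.2 ⟨l, hl, hc.le⟩
      · refine hW.1.trans ?_
        calc 2 * B = (2 / ρ) * T ^ 2 := by rw [hB]; ring
          _ ≤ κ * s ^ 2 * T ^ 2 := by gcongr
    refine (Finset.sum_le_sum h1).trans ?_
    rw [Finset.sum_const, nsmul_eq_mul]
    have h4 := hU.tot (2 * B) (by linarith)
    rw [coe_PB hU, Set.ncard_coe_finset] at h4
    have h5 : (NS.card : ℝ) ≤ (PB hU (2 * B)).card := by
      exact_mod_cast Finset.card_le_card (Finset.filter_subset _ _)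
    have h6 : 0 ≤ ε / (2 * C' * 2 ^ r) := by positivity
    exact mul_le_mul_of_nonneg_right (h5.trans h4) h6
  have e1 : (C' * κ * (2 * B) ^ r) * (1 + K1) = ε / 2 * B ^ r := by
    rw [hκ, mul_pow]
    field_simp
  have e2 : (C' * (2 * B) ^ r) * (ε / (2 * C' * 2 ^ r)) = ε / 2 * B ^ r := by
    rw [mul_pow]
    field_simp
  rw [e1] at hskew
  rw [e2] at hnonskew
  linarith

end

end Pool.Agent.Q238.GM
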