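import Pool.Agent.Q238.GM.Cnt2

/-!
Job GM-CNT: the number of the lattice points.
-/

set_option autoImplicit false

namespace Pool.Agent.Q238.GM

open MeasureTheory Filter Module NumberField NumberField.InfinitePlace NumberField.mixedEmbedding
open scoped Pointwise Classical

section

variable {K : Type} [Field K] [NumberField K] {m : ℕ}

theorem re_embedding (w : InfinitePlace K) (hw : w.IsReal) (z : K) :
    ((w.embedding z).re : ℂ) = w.embedding z := by
  rw [← embedding_of_isReal_apply hw z, Complex.ofReal_re]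

theorem mixed_real (w : {w : InfinitePlace K // w.IsReal}) (z : K) :
    (mixedEmbedding K z).1 w = (w.1.embedding z).re := by
  rw [mixedEmbedding_apply_isReal, ← embedding_of_isReal_apply w.2 z, Complex.ofReal_re]

theorem mem_DD_iff (x y : Fin m → K) (t : (K →+* ℂ) → ℝ) (n : ℕ) (hn : 0 < n) (p : K × K) :
    ((n : ℝ)⁻¹ • ((mixedEmbedding K p.1, mixedEmbedding K p.2) : mixedSpace K × mixedSpace K)) ∈
      DD x y (Pool.Agent.Q35.GM.tmin t) ↔
    ∀ (φ : K →+* ℂ) (a : Fin m), ‖φ (p.1 * x a + p.2 * y a)‖ ≤ t φ * n := by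
  have hn0 : (0 : ℝ) < n := by exact_mod_cast hn
  have h1 : ((n : ℝ)⁻¹ • ((mixedEmbedding K p.1, mixedEmbedding K p.2) :
      mixedSpace K × mixedSpace K)) ∈ DD x y (Pool.Agent.Q35.GM.tmin t) ↔
      ∀ (w : InfinitePlace K) (a : Fin m), ‖w.embedding (p.1 * x a + p.2 * y a)‖ ≤
        Pool.Agent.Q35.GM.tmin t w * n := by
    have hr : ∀ (w : {w : InfinitePlace K // w.IsReal}) (a : Fin m),
        |((n : ℝ)⁻¹ • ((mixedEmbedding K p.1, mixedEmbedding K p.2) :
          mixedSpace K × mixedSpace K)).1.1 w * (w.1.embedding (x a)).re +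
          ((n : ℝ)⁻¹ • ((mixedEmbedding K p.1, mixedEmbedding K p.2) :
          mixedSpace K × mixedSpace K)).2.1 w * (w.1.embedding (y a)).re| =
        ‖w.1.embedding (p.1 * x a + p.2 * y a)‖ / n := by
      intro w a
      have e1 : w.1.embedding (p.1 * x a + p.2 * y a) = (((w.1.embedding p.1).re *
          (w.1.embedding (x a)).re + (w.1.embedding p.2).re * (w.1.embedding (y a)).re : ℝ) :
          ℂ) := by
        push_cast
        rw [re_embedding w.1 w.2, re_embedding w.1 w.2, re_embedding w.1 w.2,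
          re_embedding w.1 w.2, map_add, map_mul, map_mul]
      rw [e1, Complex.norm_real, Real.norm_eq_abs]
      simp only [Prod.smul_fst, Prod.smul_snd, Pi.smul_apply, smul_eq_mul, mixed_real]
      rw [show (n : ℝ)⁻¹ * (w.1.embedding p.1).re * (w.1.embedding (x a)).re +
        (n : ℝ)⁻¹ * (w.1.embedding p.2).re * (w.1.embedding (y a)).re =
        ((w.1.embedding p.1).re * (w.1.embedding (x a)).re +
        (w.1.embedding p.2).re * (w.1.embedding (y a)).re) / n by ring, abs_div,
        abs_of_pos hn0]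
    have hc : ∀ (w : {w : InfinitePlace K // w.IsComplex}) (a : Fin m),
        ‖((n : ℝ)⁻¹ • ((mixedEmbedding K p.1, mixedEmbedding K p.2) :
          mixedSpace K × mixedSpace K)).1.2 w * w.1.embedding (x a) +
          ((n : ℝ)⁻¹ • ((mixedEmbedding K p.1, mixedEmbedding K p.2) :
          mixedSpace K × mixedSpace K)).2.2 w * w.1.embedding (y a)‖ =
        ‖w.1.embedding (p.1 * x a + p.2 * y a)‖ / n := by
      intro w a
      simp only [Prod.smul_fst, Prod.smul_snd, Pi.smul_apply, Complex.real_smul,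
        mixedEmbedding_apply_isComplex]
      rw [show (((n : ℝ)⁻¹ : ℝ) : ℂ) * w.1.embedding p.1 * w.1.embedding (x a) +
        (((n : ℝ)⁻¹ : ℝ) : ℂ) * w.1.embedding p.2 * w.1.embedding (y a) =
        (((n : ℝ)⁻¹ : ℝ) : ℂ) * w.1.embedding (p.1 * x a + p.2 * y a) by
          rw [map_add, map_mul, map_mul]; ring, norm_mul, Complex.norm_real, norm_inv,
        Real.norm_of_nonneg hn0.le]
      ring
    constructor
    · intro h w a
      rcases w.isReal_or_isComplex with hw | hw
      · have := h.1 ⟨w, hw⟩ a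
        rw [hr ⟨w, hw⟩ a, div_le_iff₀ hn0] at this
        exact this
      · have := h.2 ⟨w, hw⟩ a
        rw [hc ⟨w, hw⟩ a, div_le_iff₀ hn0] at this
        exact this
    · intro h
      constructor
      · intro w a
        rw [hr w a, div_le_iff₀ hn0]
        exact h w.1 a
      · intro w a
        rw [hc w a, div_le_iff₀ hn0]
        exact h w.1 a
  rw [h1]
  constructor
  · intro h φ a
    have h2 := h (mk φ) a
    rw [norm_embedding_eq, InfinitePlace.apply] at h2
    refine h2.trans ?_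
    have h3 : Pool.Agent.Q35.GM.tmin t (mk φ) ≤ t φ := by
      unfold Pool.Agent.Q35.GM.tmin
      rcases embedding_mk_eq φ with he | he
      · rw [he]; exact min_le_left _ _
      · rw [he]
        refine (min_le_right _ _).trans (le_of_eq ?_)
        congr 1
        exact ComplexEmbedding.involutive_conjugate K φ
    gcongr
  · intro h w a
    unfold Pool.Agent.Q35.GM.tmin
    rw [min_mul_of_nonneg _ _ hn0.le]
    refine le_min (h _ a) ?_
    have := h (ComplexEmbedding.conjugate w.embedding) a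
    rwa [ComplexEmbedding.conjugate_coe_eq, Complex.norm_conj] at this

theorem mem_lat {E F ι κ : Type*} [NormedAddCommGroup E] [NormedSpace ℝ E]
    [NormedAddCommGroup F] [NormedSpace ℝ F] [Fintype ι] [Fintype κ] (b : Basis ι ℝ E)
    (b' : Basis κ ℝ F) (q : E × F) :
    (b.prod b').equivFun q ∈ Submodule.span ℤ (Set.range (Pi.basisFun ℝ (ι ⊕ κ))) ↔
      q.1 ∈ Submodule.span ℤ (Set.range b) ∧ q.2 ∈ Submodule.span ℤ (Set.range b') := by
  rw [Basis.mem_span_iff_repr_mem, Basis.mem_span_iff_repr_mem, Basis.mem_span_iff_repr_mem,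
    Sum.forall]
  simp only [Pi.basisFun_repr, Basis.equivFun_apply, Basis.prod_repr_inl, Basis.prod_repr_inr]

theorem bor (K : Type) [Field K] [NumberField K] :
    BorelSpace (mixedSpace K × mixedSpace K) := inferInstance

theorem haar (K : Type) [Field K] [NumberField K] :
    (volume : Measure (mixedSpace K × mixedSpace K)).IsAddHaarMeasure :=
  Measure.prod.instIsAddHaarMeasure (volume : Measure (mixedSpace K)) volume

theorem fd_vol (u : (FractionalIdeal (nonZeroDivisors (𝓞 K)) K)ˣ) :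
    (volume (ZSpan.fundamentalDomain (fractionalIdealLatticeBasis K u))).toReal =
      ((FractionalIdeal.absNorm (u : FractionalIdeal (nonZeroDivisors (𝓞 K)) K) : ℚ) : ℝ) *
        ((2 : ℝ)⁻¹ ^ nrComplexPlaces K * Real.sqrt |(discr K : ℝ)|) := by
  rw [volume_fundamentalDomain_fractionalIdealLatticeBasis,
    volume_fundamentalDomain_latticeBasis, ENNReal.toReal_mul, ENNReal.toReal_mul,
    ENNReal.toReal_pow, ENNReal.toReal_inv,
    ENNReal.toReal_ofReal (Rat.cast_nonneg.mpr (FractionalIdeal.absNorm_nonneg _)),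
    ENNReal.toReal_ofNat, ENNReal.coe_toReal, Real.coe_sqrt, coe_nnnorm, Int.norm_eq_abs]

theorem absNorm_pos (u : (FractionalIdeal (nonZeroDivisors (𝓞 K)) K)ˣ) :
    0 < ((FractionalIdeal.absNorm (u : FractionalIdeal (nonZeroDivisors (𝓞 K)) K) : ℚ) : ℝ) := by
  have h1 := FractionalIdeal.absNorm_nonneg (u : FractionalIdeal (nonZeroDivisors (𝓞 K)) K)
  have h2 : FractionalIdeal.absNorm (u : FractionalIdeal (nonZeroDivisors (𝓞 K)) K) ≠ 0 := by
    rw [ne_eq, FractionalIdeal.absNorm_eq_zero_iff]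
    exact u.ne_zero
  exact_mod_cast lt_of_le_of_ne h1 h2.symm

theorem cnt_units (u1 u2 : (FractionalIdeal (nonZeroDivisors (𝓞 K)) K)ˣ) (x y : Fin m → K)
    (t : (K →+* ℂ) → ℝ) (hxy : LinearIndependent K ![x, y]) :
    Filter.Tendsto (fun B : ℕ => (({p : K × K |
      p.1 ∈ (u1 : FractionalIdeal (nonZeroDivisors (𝓞 K)) K) ∧
      p.2 ∈ (u2 : FractionalIdeal (nonZeroDivisors (𝓞 K)) K) ∧
      ∀ (φ : K →+* ℂ) (a : Fin m), ‖φ (p.1 * x a + p.2 * y a)‖ ≤ t φ * B}.ncard : ℕ) : ℝ) /
        (B : ℝ) ^ (2 * Pool.Agent.Q35.MM.dg K)) Filter.atTop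
      (nhds (Pool.Agent.Q35.GM.kap K /
        (((FractionalIdeal.absNorm (u1 : FractionalIdeal (nonZeroDivisors (𝓞 K)) K) : ℚ) : ℝ) *
        ((FractionalIdeal.absNorm (u2 : FractionalIdeal (nonZeroDivisors (𝓞 K)) K) : ℚ) : ℝ)) *
        ∏ w : InfinitePlace K, Pool.Agent.Q35.GM.volw w x y (Pool.Agent.Q35.GM.tmin t w))) := by
  set b1 := fractionalIdealLatticeBasis K u1 with hb1
  set b2 := fractionalIdealLatticeBasis K u2 with hb2
  set b := b1.prod b2 with hb
  set τ := Pool.Agent.Q35.GM.tmin t with hτ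
  set D := DD x y τ with hD
  have hs1 : Bornology.IsBounded (b.equivFun '' D) :=
    b.equivFunL.lipschitz.isBounded_image (DD_bounded x y τ hxy)
  have hs2 : MeasurableSet (b.equivFun '' D) :=
    b.equivFunL.toHomeomorph.toMeasurableEquiv.measurableSet_image.mpr
      (DD_closed x y τ).measurableSet
  have hs3 : volume (frontier (b.equivFun '' D)) = 0 := by
    apply Convex.addHaar_frontier
    exact (DD_convex x y τ).linear_image b.equivFun.toLinearMap
  have key := tendsto_card_div_pow_atTop_volume (b.equivFun '' D) hs1 hs2 hs3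
  have hcard : Fintype.card (Free.ChooseBasisIndex ℤ u1 ⊕ Free.ChooseBasisIndex ℤ u2) =
      2 * Pool.Agent.Q35.MM.dg K := by
    rw [Fintype.card_sum, ← finrank_eq_card_chooseBasisIndex, ← finrank_eq_card_chooseBasisIndex,
      fractionalIdeal_rank, fractionalIdeal_rank, RingOfIntegers.rank]
    ring
  -- the volume
  have hμ : (volume : Measure (mixedSpace K × mixedSpace K)) (ZSpan.fundamentalDomain b) =
      volume (ZSpan.fundamentalDomain b1) * volume (ZSpan.fundamentalDomain b2) := by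
    rw [hb, fd_prod]
    exact Measure.prod_prod _ _
  have hN1 := absNorm_pos u1
  have hN2 := absNorm_pos u2
  have hdisc : 0 < |(discr K : ℝ)| := by
    rw [abs_pos]
    exact_mod_cast discr_ne_zero K
  have hlim : volume.real (b.equivFun '' D) = Pool.Agent.Q35.GM.kap K /
      (((FractionalIdeal.absNorm (u1 : FractionalIdeal (nonZeroDivisors (𝓞 K)) K) : ℚ) : ℝ) *
        ((FractionalIdeal.absNorm (u2 : FractionalIdeal (nonZeroDivisors (𝓞 K)) K) : ℚ) : ℝ)) *
      ∏ w : InfinitePlace K, Pool.Agent.Q35.GM.volw w x y (τ w) := by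
    have h1 := congrArg ENNReal.toReal (@vol_image (mixedSpace K × mixedSpace K) _ _ _ _ _ (bor K)
      volume (haar K) _ b D)
    rw [hμ, ENNReal.toReal_mul, ENNReal.toReal_mul, hb1, hb2, fd_vol, fd_vol, hD,
      DD_vol_toReal] at h1
    rw [← h1, Pool.Agent.Q35.GM.kap, measureReal_def]
    have e3 : (4 : ℝ) ^ nrComplexPlaces K = ((2 : ℝ) ^ nrComplexPlaces K) ^ 2 := by
      rw [← pow_mul, mul_comm, pow_mul]; norm_num
    have e4 : |(discr K : ℝ)| = Real.sqrt |(discr K : ℝ)| ^ 2 :=
      (Real.sq_sqrt hdisc.le).symm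
    have hsq : 0 < Real.sqrt |(discr K : ℝ)| := Real.sqrt_pos.mpr hdisc
    rw [e3]
    generalize (volume (b.equivFun '' DD x y τ)).toReal = V at *
    generalize ((FractionalIdeal.absNorm (u1 : FractionalIdeal (nonZeroDivisors (𝓞 K)) K) : ℚ) :
      ℝ) = N1 at *
    generalize ((FractionalIdeal.absNorm (u2 : FractionalIdeal (nonZeroDivisors (𝓞 K)) K) : ℚ) :
      ℝ) = N2 at *
    generalize hq : Real.sqrt |(discr K : ℝ)| = q at *
    rw [e4]
    have h2 : (0 : ℝ) < 2 ^ nrComplexPlaces K := by positivity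
    rw [inv_pow]
    field_simp
  rw [hlim] at key
  apply key.congr'
  filter_upwards [eventually_gt_atTop 0] with n hn
  rw [hcard]
  congr 2
  have hn0 : (0 : ℝ) < n := by exact_mod_cast hn
  set S : Set (K × K) := {p : K × K |
      p.1 ∈ (u1 : FractionalIdeal (nonZeroDivisors (𝓞 K)) K) ∧
      p.2 ∈ (u2 : FractionalIdeal (nonZeroDivisors (𝓞 K)) K) ∧
      ∀ (φ : K →+* ℂ) (a : Fin m), ‖φ (p.1 * x a + p.2 * y a)‖ ≤ t φ * n} with hS
  set f : K × K → (Free.ChooseBasisIndex ℤ u1 ⊕ Free.ChooseBasisIndex ℤ u2 → ℝ) :=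
    fun p => b.equivFun ((n : ℝ)⁻¹ • (mixedEmbedding K p.1, mixedEmbedding K p.2)) with hf
  have hfinj : Function.Injective f := by
    intro p q hpq
    have h1 := b.equivFun.injective hpq
    have h2 := smul_right_injective _ (inv_ne_zero hn0.ne') h1
    rw [Prod.mk.injEq] at h2
    exact Prod.ext (mixedEmbedding_injective K h2.1) (mixedEmbedding_injective K h2.2)
  have himg : f '' S = b.equivFun '' D ∩ (n : ℝ)⁻¹ • ((Submodule.span ℤ (Set.range
      (Pi.basisFun ℝ (Free.ChooseBasisIndex ℤ u1 ⊕ Free.ChooseBasisIndex ℤ u2))) :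
      Submodule ℤ _) : Set _) := by
    ext z
    rw [Set.mem_inter_iff, Set.mem_inv_smul_set_iff₀ hn0.ne']
    constructor
    · rintro ⟨p, hp, rfl⟩
      constructor
      · exact ⟨_, (mem_DD_iff x y t n hn p).mpr hp.2.2, rfl⟩
      · have e : (n : ℝ) • f p = b.equivFun (mixedEmbedding K p.1, mixedEmbedding K p.2) := by
          rw [hf]
          simp only
          rw [map_smul, smul_smul, mul_inv_cancel₀ hn0.ne', one_smul]
        rw [e, SetLike.mem_coe, hb, mem_lat]
        constructor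
        · rw [hb1, mem_span_fractionalIdealLatticeBasis]
          exact ⟨p.1, hp.1, rfl⟩
        · rw [hb2, mem_span_fractionalIdealLatticeBasis]
          exact ⟨p.2, hp.2.1, rfl⟩
    · rintro ⟨⟨q, hq, rfl⟩, h2⟩
      rw [← map_smul, SetLike.mem_coe, hb, mem_lat, hb1, hb2,
        mem_span_fractionalIdealLatticeBasis, mem_span_fractionalIdealLatticeBasis] at h2
      obtain ⟨⟨p1, hp1, hp1'⟩, ⟨p2, hp2, hp2'⟩⟩ := h2
      have hq' : q = (n : ℝ)⁻¹ • (mixedEmbedding K p1, mixedEmbedding K p2) := by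
        rw [hp1', hp2']
        have : ((n : ℝ) • q).1 = (n : ℝ) • q.1 := rfl
        ext1
        · simp only [Prod.smul_fst]
          rw [smul_smul, inv_mul_cancel₀ hn0.ne', one_smul]
        · simp only [Prod.smul_snd]
          rw [smul_smul, inv_mul_cancel₀ hn0.ne', one_smul]
      refine ⟨(p1, p2), ⟨hp1, hp2, ?_⟩, ?_⟩
      · apply (mem_DD_iff x y t n hn (p1, p2)).mp
        rw [← hq']
        exact hq
      · rw [hf]
        simp only
        rw [← hq']
  rw [← himg, Nat.card_image_of_injective hfinj]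
  rfl

end

theorem cnt : Pool.Agent.Q35.GM.S_CNT := by
  intro K _ _ m J1 J2 x y t hJ1 hJ2 hxy _
  exact cnt_units (Units.mk0 J1 hJ1) (Units.mk0 J2 hJ2) x y t hxy

end Pool.Agent.Q238.GM
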