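import Pool.Agent.Q35.GM.Stm

/-!
Job GM-CNT, part 1: volumes and lattice points, general facts.
-/

set_option autoImplicit false

namespace Pool.Agent.Q238.GM

open MeasureTheory Filter Module
open scoped Pointwise

/-- The volume in the coordinates of a basis. -/
theorem vol_image {E ι : Type*} [NormedAddCommGroup E] [NormedSpace ℝ E] [FiniteDimensional ℝ E]
    [MeasurableSpace E] [BorelSpace E] (μ : Measure E) [μ.IsAddHaarMeasure] [Fintype ι]
    (b : Basis ι ℝ E) (s : Set E) :
    volume (b.equivFun '' s) * μ (ZSpan.fundamentalDomain b) = μ s := by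
  classical
  set e : E ≃L[ℝ] (ι → ℝ) := b.equivFunL with he
  have hec : ∀ x, e x = b.equivFun x := fun x => rfl
  have hmeq : MeasurePreserving e.toHomeomorph.toMeasurableEquiv μ (μ.map e) :=
    ⟨e.toHomeomorph.toMeasurableEquiv.measurable, rfl⟩
  have : (μ.map e).IsAddHaarMeasure := e.isAddHaarMeasure_map μ
  have hc := Measure.isAddLeftInvariant_eq_smul (μ.map e) (volume : Measure (ι → ℝ))
  set c := Measure.addHaarScalarFactor (μ.map e) (volume : Measure (ι → ℝ)) with hcdef
  have hpre : ∀ t : Set (ι → ℝ), (μ.map e) t = μ (e ⁻¹' t) := by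
    intro t
    exact (e.toHomeomorph.toMeasurableEquiv).map_apply t
  have hfd : ZSpan.fundamentalDomain b = e ⁻¹' (Set.univ.pi fun _ => Set.Ico (0 : ℝ) 1) := by
    ext x
    rw [ZSpan.mem_fundamentalDomain]
    simp only [Set.mem_preimage, Set.mem_pi, Set.mem_univ, true_implies, hec, Basis.equivFun_apply]
  have hcube : (volume : Measure (ι → ℝ)) (Set.univ.pi fun _ => Set.Ico (0 : ℝ) 1) = 1 := by
    rw [Real.volume_pi_Ico]
    simp
  have h1 : μ (ZSpan.fundamentalDomain b) = c := by
    rw [hfd, ← hpre, hc]
    simp only [Measure.smul_apply, hcube]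
    simp
  have h2 : μ s = c * volume (b.equivFun '' s) := by
    have h3 : s = e ⁻¹' (b.equivFun '' s) := by
      ext x
      constructor
      · intro hx
        exact ⟨x, hx, rfl⟩
      · rintro ⟨y, hy, hxy⟩
        have : y = x := b.equivFun.injective hxy
        rwa [← this]
    conv_lhs => rw [h3, ← hpre, hc]
    simp only [Measure.smul_apply]
    rfl
  rw [h1, h2, mul_comm]

/-- The fundamental domain of a product. -/
theorem fd_prod {E F ι κ : Type*} [NormedAddCommGroup E] [NormedSpace ℝ E]
    [NormedAddCommGroup F] [NormedSpace ℝ F] (b : Basis ι ℝ E) (b' : Basis κ ℝ F) :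
    ZSpan.fundamentalDomain (b.prod b') =
      ZSpan.fundamentalDomain b ×ˢ ZSpan.fundamentalDomain b' := by
  ext p
  rw [ZSpan.mem_fundamentalDomain, Set.mem_prod, ZSpan.mem_fundamentalDomain,
    ZSpan.mem_fundamentalDomain]
  simp only [Sum.forall, Basis.prod_repr_inl, Basis.prod_repr_inr]

/-- The rearrangement of four factors. -/
theorem mp4 {A B C D : Type*} [MeasureSpace A] [MeasureSpace B] [MeasureSpace C] [MeasureSpace D]
    [SigmaFinite (volume : Measure A)] [SigmaFinite (volume : Measure B)]
    [SigmaFinite (volume : Measure C)] [SigmaFinite (volume : Measure D)] :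
    MeasurePreserving (fun p : (A × B) × (C × D) => ((p.1.1, p.2.1), (p.1.2, p.2.2))) := by
  have s1 : MeasurePreserving (MeasurableEquiv.prodAssoc : (A × B) × (C × D) ≃ᵐ A × (B × (C × D))) :=
    volume_preserving_prodAssoc
  have s2 : MeasurePreserving (Prod.map (id : A → A)
      (MeasurableEquiv.prodAssoc : (B × C) × D ≃ᵐ B × (C × D)).symm) :=
    (MeasurePreserving.id volume).prod volume_preserving_prodAssoc.symm
  have s3 : MeasurePreserving (Prod.map (id : A → A)
      (Prod.map (Prod.swap : B × C → C × B) (id : D → D))) :=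
    (MeasurePreserving.id volume).prod
      ((Measure.measurePreserving_swap).prod (MeasurePreserving.id volume))
  have s4 : MeasurePreserving (Prod.map (id : A → A)
      (MeasurableEquiv.prodAssoc : (C × B) × D ≃ᵐ C × (B × D))) :=
    (MeasurePreserving.id volume).prod volume_preserving_prodAssoc
  have s5 : MeasurePreserving
      (MeasurableEquiv.prodAssoc : (A × C) × (B × D) ≃ᵐ A × (C × (B × D))).symm :=
    volume_preserving_prodAssoc.symm
  exact s5.comp (s4.comp (s3.comp (s2.comp s1)))

end Pool.Agent.Q238.GM
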