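import Pool.Agent.Q238.GM.Cnt1

/-!
Job GM-CNT, part 2: the region and its volume.
-/

set_option autoImplicit false

namespace Pool.Agent.Q238.GM

open MeasureTheory Filter Module NumberField NumberField.InfinitePlace NumberField.mixedEmbedding
open scoped Pointwise Classical

variable {K : Type} [Field K] [NumberField K] {m : ℕ}

/-- The region at a real place. -/
def SR (x y : Fin m → K) (w : InfinitePlace K) (τ : ℝ) : Set (Fin 2 → ℝ) :=
  {z | ∀ a, |z 0 * (w.embedding (x a)).re + z 1 * (w.embedding (y a)).re| ≤ τ}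

/-- The region at a complex place. -/
def SC (x y : Fin m → K) (w : InfinitePlace K) (τ : ℝ) : Set (Fin 2 → ℂ) :=
  {z | ∀ a, ‖z 0 * w.embedding (x a) + z 1 * w.embedding (y a)‖ ≤ τ}

/-- The region. -/
def DD (x y : Fin m → K) (τ : InfinitePlace K → ℝ) : Set (mixedSpace K × mixedSpace K) :=
  {p | (∀ (w : {w : InfinitePlace K // w.IsReal}) (a : Fin m),
      |p.1.1 w * (w.1.embedding (x a)).re + p.2.1 w * (w.1.embedding (y a)).re| ≤ τ w.1) ∧
    ∀ (w : {w : InfinitePlace K // w.IsComplex}) (a : Fin m),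
      ‖p.1.2 w * w.1.embedding (x a) + p.2.2 w * w.1.embedding (y a)‖ ≤ τ w.1}

theorem SR_closed (x y : Fin m → K) (w : InfinitePlace K) (τ : ℝ) : IsClosed (SR x y w τ) := by
  unfold SR
  simp only [Set.ofPred_forall]
  apply isClosed_iInter
  intro a
  apply isClosed_le _ continuous_const
  fun_prop

theorem SC_closed (x y : Fin m → K) (w : InfinitePlace K) (τ : ℝ) : IsClosed (SC x y w τ) := by
  unfold SC
  simp only [Set.ofPred_forall]
  apply isClosed_iInter
  intro a
  apply isClosed_le _ continuous_const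
  fun_prop

/-- The rearrangement of the coordinates. -/
noncomputable def TT (K : Type) [Field K] [NumberField K] (p : mixedSpace K × mixedSpace K) :
    ({w : InfinitePlace K // w.IsReal} → Fin 2 → ℝ) ×
      ({w : InfinitePlace K // w.IsComplex} → Fin 2 → ℂ) :=
  (fun w => ![p.1.1 w, p.2.1 w], fun w => ![p.1.2 w, p.2.2 w])

theorem mp_fin (α β : Type*) [MeasureSpace α] [Fintype β] [SigmaFinite (volume : Measure α)] :
    MeasurePreserving (fun (p : (β → α) × (β → α)) (w : β) => (![p.1 w, p.2 w] : Fin 2 → α)) := by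
  have h1 := (volume_measurePreserving_arrowProdEquivProdArrow α α β).symm
  have h2 : MeasurePreserving (fun (a : β → α × α) (i : β) =>
      (MeasurableEquiv.finTwoArrow : (Fin 2 → α) ≃ᵐ α × α).symm (a i)) :=
    volume_preserving_pi (fun _ => (volume_preserving_finTwoArrow α).symm)
  have h3 := h2.comp h1
  exact h3

theorem TT_mp (K : Type) [Field K] [NumberField K] : MeasurePreserving (TT K) := by
  have h1 := mp4 (A := {w : InfinitePlace K // w.IsReal} → ℝ)
    (B := {w : InfinitePlace K // w.IsComplex} → ℂ)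
    (C := {w : InfinitePlace K // w.IsReal} → ℝ)
    (D := {w : InfinitePlace K // w.IsComplex} → ℂ)
  have h2 := (mp_fin ℝ {w : InfinitePlace K // w.IsReal}).prod
    (mp_fin ℂ {w : InfinitePlace K // w.IsComplex})
  exact h2.comp h1

theorem DD_eq (x y : Fin m → K) (τ : InfinitePlace K → ℝ) :
    DD x y τ = TT K ⁻¹' ((Set.univ.pi fun w => SR x y w.1 (τ w.1)) ×ˢ
      (Set.univ.pi fun w => SC x y w.1 (τ w.1))) := by
  ext p
  simp only [DD, TT, SR, SC, Set.mem_ofPred_eq, Set.mem_preimage, Set.mem_prod, Set.mem_pi,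
    Set.mem_univ, true_implies, Matrix.cons_val_zero, Matrix.cons_val_one]

theorem DD_vol (x y : Fin m → K) (τ : InfinitePlace K → ℝ) :
    volume (DD x y τ) = (∏ w : {w : InfinitePlace K // w.IsReal}, volume (SR x y w.1 (τ w.1))) *
      ∏ w : {w : InfinitePlace K // w.IsComplex}, volume (SC x y w.1 (τ w.1)) := by
  have h1 : MeasurableSet (Set.univ.pi fun w : {w : InfinitePlace K // w.IsReal} =>
      SR x y w.1 (τ w.1)) :=
    MeasurableSet.univ_pi fun w => (SR_closed x y w.1 _).measurableSet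
  have h2 : MeasurableSet (Set.univ.pi fun w : {w : InfinitePlace K // w.IsComplex} =>
      SC x y w.1 (τ w.1)) :=
    MeasurableSet.univ_pi fun w => (SC_closed x y w.1 _).measurableSet
  rw [DD_eq, (TT_mp K).measure_preimage (h1.prod h2).nullMeasurableSet]
  change (Measure.prod volume volume) _ = _
  rw [Measure.prod_prod, volume_pi_pi, volume_pi_pi]

theorem DD_vol_toReal (x y : Fin m → K) (τ : InfinitePlace K → ℝ) :
    (volume (DD x y τ)).toReal = ∏ w : InfinitePlace K, Pool.Agent.Q35.GM.volw w x y (τ w) := by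
  rw [DD_vol, ENNReal.toReal_mul, ENNReal.toReal_prod, ENNReal.toReal_prod,
    prod_eq_prod_mul_prod]
  congr 1
  · apply Finset.prod_congr rfl
    intro w _
    rw [Pool.Agent.Q35.GM.volw, if_pos w.2]
    rfl
  · apply Finset.prod_congr rfl
    intro w _
    rw [Pool.Agent.Q35.GM.volw, if_neg (not_isReal_iff_isComplex.mpr w.2)]
    rfl

theorem DD_convex (x y : Fin m → K) (τ : InfinitePlace K → ℝ) : Convex ℝ (DD x y τ) := by
  intro p hp q hq a b ha hb hab
  simp only [DD, Set.mem_ofPred_eq] at hp hq ⊢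
  constructor
  · intro w i
    have h1 := hp.1 w i
    have h2 := hq.1 w i
    have e : (a • p + b • q).1.1 w * (w.1.embedding (x i)).re +
        (a • p + b • q).2.1 w * (w.1.embedding (y i)).re =
        a * (p.1.1 w * (w.1.embedding (x i)).re + p.2.1 w * (w.1.embedding (y i)).re) +
        b * (q.1.1 w * (w.1.embedding (x i)).re + q.2.1 w * (w.1.embedding (y i)).re) := by
      simp only [Prod.fst_add, Prod.snd_add, Prod.smul_fst, Prod.smul_snd, Pi.add_apply,
        Pi.smul_apply, smul_eq_mul]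
      ring
    rw [e]
    calc _ ≤ |a * (p.1.1 w * (w.1.embedding (x i)).re + p.2.1 w * (w.1.embedding (y i)).re)| +
        |b * (q.1.1 w * (w.1.embedding (x i)).re + q.2.1 w * (w.1.embedding (y i)).re)| :=
          abs_add_le _ _
      _ ≤ a * τ w.1 + b * τ w.1 := by
          rw [abs_mul, abs_mul, abs_of_nonneg ha, abs_of_nonneg hb]
          gcongr
      _ = τ w.1 := by rw [← add_mul, hab, one_mul]
  · intro w i
    have h1 := hp.2 w i
    have h2 := hq.2 w i
    have e : (a • p + b • q).1.2 w * w.1.embedding (x i) +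
        (a • p + b • q).2.2 w * w.1.embedding (y i) =
        (a : ℂ) * (p.1.2 w * w.1.embedding (x i) + p.2.2 w * w.1.embedding (y i)) +
        (b : ℂ) * (q.1.2 w * w.1.embedding (x i) + q.2.2 w * w.1.embedding (y i)) := by
      simp only [Prod.fst_add, Prod.snd_add, Prod.smul_fst, Prod.smul_snd, Pi.add_apply,
        Pi.smul_apply, Complex.real_smul]
      ring
    rw [e]
    calc _ ≤ ‖(a : ℂ) * (p.1.2 w * w.1.embedding (x i) + p.2.2 w * w.1.embedding (y i))‖ +
        ‖(b : ℂ) * (q.1.2 w * w.1.embedding (x i) + q.2.2 w * w.1.embedding (y i))‖ :=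
          norm_add_le _ _
      _ ≤ a * τ w.1 + b * τ w.1 := by
          rw [norm_mul, norm_mul, Complex.norm_of_nonneg ha, Complex.norm_of_nonneg hb]
          gcongr
      _ = τ w.1 := by rw [← add_mul, hab, one_mul]

theorem DD_closed (x y : Fin m → K) (τ : InfinitePlace K → ℝ) : IsClosed (DD x y τ) := by
  have : DD x y τ = (⋂ (w : {w : InfinitePlace K // w.IsReal}) (a : Fin m),
      {p : mixedSpace K × mixedSpace K |
        |p.1.1 w * (w.1.embedding (x a)).re + p.2.1 w * (w.1.embedding (y a)).re| ≤ τ w.1}) ∩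
      ⋂ (w : {w : InfinitePlace K // w.IsComplex}) (a : Fin m),
      {p : mixedSpace K × mixedSpace K |
        ‖p.1.2 w * w.1.embedding (x a) + p.2.2 w * w.1.embedding (y a)‖ ≤ τ w.1} := by
    ext p
    simp only [DD, Set.mem_ofPred_eq, Set.mem_inter_iff, Set.mem_iInter]
  rw [this]
  apply IsClosed.inter
  · apply isClosed_iInter
    intro w
    apply isClosed_iInter
    intro a
    apply isClosed_le _ continuous_const
    fun_prop
  · apply isClosed_iInter
    intro w
    apply isClosed_iInter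
    intro a
    apply isClosed_le _ continuous_const
    fun_prop

/-- Two linearly independent vectors have a nonzero minor. -/
theorem ex_minor {F : Type*} [Field F] (x y : Fin m → F) (h : LinearIndependent F ![x, y]) :
    ∃ a b, x a * y b - x b * y a ≠ 0 := by
  by_contra hc
  push Not at hc
  rw [LinearIndependent.pair_iff] at h
  have h1 : ∀ a, x a = 0 := by
    intro a
    have := (h (y a) (-x a) (by
      ext b
      simp only [Pi.add_apply, Pi.smul_apply, smul_eq_mul, Pi.zero_apply]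
      have := hc a b
      linear_combination -this)).2
    simpa using this
  have := (h 1 0 (by ext b; simp [h1 b])).1
  exact one_ne_zero this

theorem bd_aux {F : Type*} [NormedField F] (s t X Y X' Y' : F) (τ : ℝ)
    (h1 : ‖s * X + t * Y‖ ≤ τ) (h2 : ‖s * X' + t * Y'‖ ≤ τ) (hd : X * Y' - X' * Y ≠ 0) :
    ‖s‖ ≤ τ * (‖X‖ + ‖Y‖ + ‖X'‖ + ‖Y'‖) / ‖X * Y' - X' * Y‖ ∧
    ‖t‖ ≤ τ * (‖X‖ + ‖Y‖ + ‖X'‖ + ‖Y'‖) / ‖X * Y' - X' * Y‖ := by
  have hd0 : 0 < ‖X * Y' - X' * Y‖ := norm_pos_iff.mpr hd
  have hτ : 0 ≤ τ := (norm_nonneg _).trans h1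
  constructor
  · rw [le_div_iff₀ hd0, ← norm_mul]
    have e : s * (X * Y' - X' * Y) = (s * X + t * Y) * Y' - (s * X' + t * Y') * Y := by ring
    rw [e]
    calc _ ≤ ‖(s * X + t * Y) * Y'‖ + ‖(s * X' + t * Y') * Y‖ := norm_sub_le _ _
      _ ≤ τ * ‖Y'‖ + τ * ‖Y‖ := by
          rw [norm_mul, norm_mul]; gcongr
      _ ≤ τ * (‖X‖ + ‖Y‖ + ‖X'‖ + ‖Y'‖) := by
          have := norm_nonneg X
          have := norm_nonneg X'
          nlinarith
  · rw [le_div_iff₀ hd0, ← norm_mul]
    have e : t * (X * Y' - X' * Y) = (s * X' + t * Y') * X - (s * X + t * Y) * X' := by ring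
    rw [e]
    calc _ ≤ ‖(s * X' + t * Y') * X‖ + ‖(s * X + t * Y) * X'‖ := norm_sub_le _ _
      _ ≤ τ * ‖X‖ + τ * ‖X'‖ := by
          rw [norm_mul, norm_mul]; gcongr
      _ ≤ τ * (‖X‖ + ‖Y‖ + ‖X'‖ + ‖Y'‖) := by
          have := norm_nonneg Y
          have := norm_nonneg Y'
          nlinarith

theorem DD_bounded (x y : Fin m → K) (τ : InfinitePlace K → ℝ)
    (h : LinearIndependent K ![x, y]) : Bornology.IsBounded (DD x y τ) := by
  obtain ⟨a, b, hab⟩ := ex_minor x y h
  set R : InfinitePlace K → ℝ := fun w => |τ w * (‖w.embedding (x a)‖ + ‖w.embedding (y a)‖ +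
    ‖w.embedding (x b)‖ + ‖w.embedding (y b)‖) / ‖w.embedding (x a * y b - x b * y a)‖| with hR
  have hR0 : ∀ w, 0 ≤ R w := fun w => abs_nonneg _
  have hRle : ∀ w, R w ≤ ∑ w, R w := fun w =>
    Finset.single_le_sum (fun i _ => hR0 i) (Finset.mem_univ w)
  have hS0 : 0 ≤ ∑ w, R w := Finset.sum_nonneg fun i _ => hR0 i
  have hdet : ∀ w : InfinitePlace K, w.embedding (x a * y b - x b * y a) ≠ 0 := fun w =>
    (map_ne_zero _).mpr hab
  have key1 : ∀ p ∈ DD x y τ, ∀ w : {w : InfinitePlace K // w.IsReal},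
      ‖p.1.1 w‖ ≤ ∑ w, R w ∧ ‖p.2.1 w‖ ≤ ∑ w, R w := by
    intro p hp w
    have hre : ∀ z : K, ((w.1.embedding z).re : ℂ) = w.1.embedding z := by
      intro z
      rw [← embedding_of_isReal_apply w.2 z, Complex.ofReal_re]
    have hre' : ∀ z : K, ‖w.1.embedding z‖ = ‖(w.1.embedding z).re‖ := by
      intro z
      conv_lhs => rw [← hre z]
      rw [Complex.norm_real]
    have hmul : w.1.embedding (x a * y b - x b * y a) = (((w.1.embedding (x a)).re *
        (w.1.embedding (y b)).re - (w.1.embedding (x b)).re * (w.1.embedding (y a)).re : ℝ) :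
        ℂ) := by
      push_cast
      rw [hre, hre, hre, hre, map_sub, map_mul, map_mul]
    have hd : (w.1.embedding (x a)).re * (w.1.embedding (y b)).re -
        (w.1.embedding (x b)).re * (w.1.embedding (y a)).re ≠ 0 := by
      intro h0
      apply hdet w.1
      rw [hmul, h0, Complex.ofReal_zero]
    have h1 := bd_aux (p.1.1 w) (p.2.1 w) (w.1.embedding (x a)).re (w.1.embedding (y a)).re
      (w.1.embedding (x b)).re (w.1.embedding (y b)).re (τ w.1) (hp.1 w a) (hp.1 w b) hd
    have e : τ w.1 * (‖(w.1.embedding (x a)).re‖ + ‖(w.1.embedding (y a)).re‖ +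
        ‖(w.1.embedding (x b)).re‖ + ‖(w.1.embedding (y b)).re‖) /
        ‖(w.1.embedding (x a)).re * (w.1.embedding (y b)).re -
        (w.1.embedding (x b)).re * (w.1.embedding (y a)).re‖ ≤ R w.1 := by
      rw [hR]
      refine le_trans (le_of_eq ?_) (le_abs_self _)
      rw [hmul, Complex.norm_real, hre', hre', hre', hre']
    exact ⟨(h1.1.trans e).trans (hRle _), (h1.2.trans e).trans (hRle _)⟩
  have key2 : ∀ p ∈ DD x y τ, ∀ w : {w : InfinitePlace K // w.IsComplex},
      ‖p.1.2 w‖ ≤ ∑ w, R w ∧ ‖p.2.2 w‖ ≤ ∑ w, R w := by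
    intro p hp w
    have hmul : w.1.embedding (x a * y b - x b * y a) = w.1.embedding (x a) *
        w.1.embedding (y b) - w.1.embedding (x b) * w.1.embedding (y a) := by
      rw [map_sub, map_mul, map_mul]
    have hd := hdet w.1
    rw [hmul] at hd
    have h1 := bd_aux (p.1.2 w) (p.2.2 w) (w.1.embedding (x a)) (w.1.embedding (y a))
      (w.1.embedding (x b)) (w.1.embedding (y b)) (τ w.1) (hp.2 w a) (hp.2 w b) hd
    have e : τ w.1 * (‖w.1.embedding (x a)‖ + ‖w.1.embedding (y a)‖ +
        ‖w.1.embedding (x b)‖ + ‖w.1.embedding (y b)‖) /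
        ‖w.1.embedding (x a) * w.1.embedding (y b) -
        w.1.embedding (x b) * w.1.embedding (y a)‖ ≤ R w.1 := by
      rw [hR]
      refine le_trans (le_of_eq ?_) (le_abs_self _)
      rw [hmul]
    exact ⟨(h1.1.trans e).trans (hRle _), (h1.2.trans e).trans (hRle _)⟩
  rw [isBounded_iff_forall_norm_le]
  refine ⟨∑ w, R w, ?_⟩
  intro p hp
  rw [Prod.norm_def, Prod.norm_def, Prod.norm_def]
  refine max_le (max_le ?_ ?_) (max_le ?_ ?_)
  · exact (pi_norm_le_iff_of_nonneg hS0).mpr fun w => (key1 p hp w).1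
  · exact (pi_norm_le_iff_of_nonneg hS0).mpr fun w => (key2 p hp w).1
  · exact (pi_norm_le_iff_of_nonneg hS0).mpr fun w => (key1 p hp w).2
  · exact (pi_norm_le_iff_of_nonneg hS0).mpr fun w => (key2 p hp w).2

end Pool.Agent.Q238.GM
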