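import Pool.Agent.Q35.GM.Stm

/-!
Job GM-POS: a lower bound for the number of planes.
-/

set_option autoImplicit false

namespace Pool.Agent.Q238.GM

open Pool.Agent.Q35.GM

/-- The number of pairs is at most the number of pairs in planes of small height plus the number of
planes times a constant. -/
theorem pos_step {PL L : Type} {On : L → PL → Prop} {h : L → ℝ} {H v : PL → ℝ} {Λ : ℝ → ℝ} {r d : ℕ}
    {C η C' : ℝ} (hS : Sys On h H v Λ r d C η) (hU : Ubd On h H r C') (T z : ℝ) (hT : 1 ≤ T)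
    (hz : 1 ≤ z) :
    (({p : L × L | p.1 ≠ p.2 ∧ (∃ W, On p.1 W ∧ On p.2 W) ∧ h p.1 ≤ T ∧ h p.2 ≤ T}.ncard : ℕ) : ℝ) ≤
      (({p : L × L | p.1 ≠ p.2 ∧ (∃ W, On p.1 W ∧ On p.2 W ∧ H W ≤ T ^ 2 / z) ∧ h p.1 ≤ T ∧
        h p.2 ≤ T}.ncard : ℕ) : ℝ) +
      (({W : PL | H W ≤ C * T ^ 2}.ncard : ℕ) : ℝ) * (C' * z) ^ 2 := by
  classical
  have hT0 : 0 < T := by linarith
  have hz0 : 0 < z := by linarith
  set PLs : Finset PL := (hU.fin (C * T ^ 2)).toFinset with hPLs
  set LT : Finset L := (hS.fin T).toFinset with hLT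
  have hmL : ∀ l, l ∈ LT ↔ h l ≤ T := fun l => by simp [hLT]
  have hmP : ∀ W, W ∈ PLs ↔ H W ≤ C * T ^ 2 := fun W => by simp [hPLs]
  set PA : Finset (L × L) := (LT ×ˢ LT).filter fun p => p.1 ≠ p.2 ∧ ∃ W, On p.1 W ∧ On p.2 W
    with hPA
  set TA : Finset (L × L) := (LT ×ˢ LT).filter fun p => p.1 ≠ p.2 ∧
    ∃ W, On p.1 W ∧ On p.2 W ∧ H W ≤ T ^ 2 / z with hTA
  have e1 : {p : L × L | p.1 ≠ p.2 ∧ (∃ W, On p.1 W ∧ On p.2 W) ∧ h p.1 ≤ T ∧ h p.2 ≤ T} =
      (PA : Set (L × L)) := by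
    ext p
    simp only [hPA, Set.mem_ofPred_eq, Finset.coe_filter, Finset.mem_product, hmL]
    tauto
  have e2 : {p : L × L | p.1 ≠ p.2 ∧ (∃ W, On p.1 W ∧ On p.2 W ∧ H W ≤ T ^ 2 / z) ∧ h p.1 ≤ T ∧
        h p.2 ≤ T} = (TA : Set (L × L)) := by
    ext p
    simp only [hTA, Set.mem_ofPred_eq, Finset.coe_filter, Finset.mem_product, hmL]
    tauto
  have e3 : {W : PL | H W ≤ C * T ^ 2} = (PLs : Set PL) := by
    ext W; simp [hmP]
  rw [e1, e2, e3, Set.ncard_coe_finset, Set.ncard_coe_finset, Set.ncard_coe_finset]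
  set SW : PL → Finset L := fun W => LT.filter fun l => On l W with hSW
  set PM : Finset PL := PLs.filter fun W => T ^ 2 / z < H W with hPM
  have hsub : PA ⊆ TA ∪ PM.biUnion fun W => SW W ×ˢ SW W := by
    intro p hp
    simp only [hPA, Finset.mem_filter, Finset.mem_product, hmL] at hp
    obtain ⟨⟨h1, h2⟩, hne, W, hW1, hW2⟩ := hp
    by_cases hc : H W ≤ T ^ 2 / z
    · apply Finset.mem_union_left
      simp only [hTA, Finset.mem_filter, Finset.mem_product, hmL]
      exact ⟨⟨h1, h2⟩, hne, W, hW1, hW2, hc⟩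
    · apply Finset.mem_union_right
      push Not at hc
      simp only [Finset.mem_biUnion, hPM, hSW, Finset.mem_filter, Finset.mem_product, hmL, hmP]
      refine ⟨W, ⟨?_, hc⟩, ⟨h1, hW1⟩, h2, hW2⟩
      have hu := hS.upper p.1 p.2 W hne hW1 hW2
      have hC0 : 0 ≤ C := by linarith [hS.hC]
      have : h p.1 * h p.2 ≤ T * T := by
        apply mul_le_mul h1 h2 _ hT0.le
        linarith [hS.one_le_h p.2]
      calc H W ≤ C * (h p.1 * h p.2) := hu
        _ ≤ C * (T * T) := by gcongr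
        _ = C * T ^ 2 := by ring
  have hSWc : ∀ W ∈ PM, ((SW W).card : ℝ) ≤ C' * z := by
    intro W hW
    simp only [hPM, Finset.mem_filter] at hW
    have e4 : {l : L | On l W ∧ h l ≤ T} = (SW W : Set L) := by
      ext l
      simp only [hSW, Set.mem_ofPred_eq, Finset.coe_filter, hmL]
      tauto
    have hC'1 := hU.one_le
    by_cases hc : 2 ≤ (SW W).card
    · have := hU.cnt W T (by rw [e4, Set.ncard_coe_finset]; exact hc)
      rw [e4, Set.ncard_coe_finset] at this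
      refine this.trans ?_
      have hH : 0 < H W := by linarith [hS.one_le_H W]
      have : T ^ 2 / H W ≤ z := by
        rw [div_le_iff₀ hH]
        have := hW.2
        rw [div_lt_iff₀ hz0] at this
        linarith
      gcongr
    · push Not at hc
      have : ((SW W).card : ℝ) ≤ 1 := by
        have : (SW W).card ≤ 1 := by omega
        exact_mod_cast this
      nlinarith
  have h1 : (PA.card : ℝ) ≤ TA.card + ∑ W ∈ PM, ((SW W).card : ℝ) ^ 2 := by
    have := (Finset.card_le_card hsub).trans ((Finset.card_union_le _ _).trans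
      (Nat.add_le_add_left Finset.card_biUnion_le _))
    have h2 : (PA.card : ℝ) ≤ ((TA.card + ∑ W ∈ PM, (SW W ×ˢ SW W).card : ℕ) : ℝ) := by
      exact_mod_cast this
    refine h2.trans (le_of_eq ?_)
    push_cast
    congr 1
    apply Finset.sum_congr rfl
    intro W _
    rw [Finset.card_product]
    push_cast
    ring
  have h2 : ∑ W ∈ PM, ((SW W).card : ℝ) ^ 2 ≤ (PLs.card : ℝ) * (C' * z) ^ 2 := by
    calc ∑ W ∈ PM, ((SW W).card : ℝ) ^ 2 ≤ ∑ W ∈ PM, (C' * z) ^ 2 := by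
          apply Finset.sum_le_sum
          intro W hW
          exact pow_le_pow_left₀ (Nat.cast_nonneg _) (hSWc W hW) 2
      _ = (PM.card : ℝ) * (C' * z) ^ 2 := by rw [Finset.sum_const, nsmul_eq_mul]
      _ ≤ (PLs.card : ℝ) * (C' * z) ^ 2 := by
          have : (PM.card : ℝ) ≤ (PLs.card : ℝ) := by
            exact_mod_cast Finset.card_le_card (Finset.filter_subset _ _)
          gcongr
  linarith

theorem pos : Pool.Agent.Q35.GM.S_TAIL → Pool.Agent.Q35.GM.S_POS := by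
  intro hTail PL L On h H v Λ r d C η C' c T0 hS hU hc hlow
  obtain ⟨C2, hC2, htail⟩ := hTail PL L On h H v Λ r d C η C' hS hU
  have hC1 := hS.hC
  have hC'1 := hU.one_le
  have hC0 : 0 < C := by linarith
  set z : ℝ := max 1 (2 * C2 / c) with hz
  have hz1 : 1 ≤ z := le_max_left _ _
  have hz2 : C2 / z ≤ c / 2 := by
    have hz0 : 0 < z := by linarith
    have : 2 * C2 / c ≤ z := le_max_right _ _
    rw [div_le_iff₀ hc] at this
    rw [div_le_iff₀ hz0]
    linarith
  refine ⟨c / 2 / (C' * z) ^ 2 / C ^ r, C * (max T0 1) ^ 2, by positivity, ?_⟩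
  intro B hB
  have hM1 : 1 ≤ max T0 1 := le_max_right _ _
  have hB0 : 0 < B := lt_of_lt_of_le (by positivity) hB
  set T : ℝ := Real.sqrt (B / C) with hT
  have hTM : max T0 1 ≤ T := by
    rw [hT]
    apply Real.le_sqrt_of_sq_le
    rw [le_div_iff₀ hC0]
    linarith
  have hT1 : 1 ≤ T := hM1.trans hTM
  have hTT : T0 ≤ T := (le_max_left _ _).trans hTM
  have hTsq : T ^ 2 = B / C := by
    rw [hT, Real.sq_sqrt (by positivity)]
  have hTr : T ^ (2 * r) = B ^ r / C ^ r := by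
    rw [pow_mul, hTsq, div_pow]
  have hCB : C * T ^ 2 = B := by
    rw [hTsq]; field_simp
  have h1 := hlow T hTT
  have h2 := pos_step hS hU T z hT1 hz1
  have h3 := htail T z hT1 hz1
  rw [hCB] at h2
  have h4 : c / 2 * T ^ (2 * r) ≤ (({W : PL | H W ≤ B}.ncard : ℕ) : ℝ) * (C' * z) ^ 2 := by
    have : C2 / z * T ^ (2 * r) ≤ c / 2 * T ^ (2 * r) := by gcongr
    linarith
  have hz0 : 0 < C' * z := by positivity
  have e : c / 2 / (C' * z) ^ 2 / C ^ r * B ^ r = c / 2 * T ^ (2 * r) / (C' * z) ^ 2 := by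
    rw [hTr]; ring
  rw [e, div_le_iff₀ (by positivity)]
  exact h4

end Pool.Agent.Q238.GM
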